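import Mathlib
import Pool.Agent.H44.ShoreN.RegA
import Pool.Agent.H81.Shore.Asm1

/-!
Shoreline search: all the regions of the stage one certificate.
-/

namespace Pool.Agent.H44.ShoreN

open Pool.Agent.H65.Shore (RegOk Reg)
open Pool.Agent.H44.Shore Pool.Agent.H44.Shore.MBC

theorem regs1 : Pool.Agent.H81.Shore.Regs1 where
  r0 := ro_a0 0
  r1 := ro_a1 0
  r2 := ro_a2 0
  r3 := ro_a3 0
  r4 := ro_a4 0
  r5 := ro_a5 0
  r6 := ro_a6 0
  r7 := ro_a7 0
  r8 := ro_a8 0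

end Pool.Agent.H44.ShoreN
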