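import Mathlib
import Pool.Agent.H44.ShoreN.RegK

/-!
Shoreline search: the regions of the exact certificate.
-/

namespace Pool.Agent.H44.ShoreN

open Pool.Agent.H65.Shore (RegOk Reg)
open Pool.Agent.H4.Shore (Consts)
open Pool.Agent.H44.Shore Pool.Agent.H44.Shore.MBC

theorem rb_b0 {α ω : ℝ} (h : Consts α ω) :
    RegB (DX α ω) (51 / 50) ⟨0, 41943, 80217, 20848, 62, 439, 26, 0, 0, 0⟩ :=
  regIn_sound (rkx h) (b := ⟨65537, 262147, -12846, 64, 280, 257781, 2183, 2, 12846, 262147⟩)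
    (M := ⟨12478997271, 275192632851, 5953330827006, 1114769028, 71311986341, 3107820527720,
      7006856080, 478799685249, 25786134720⟩)
    (by decide +kernel)

theorem rb_b1 {α ω : ℝ} (h : Consts α ω) :
    RegB (DX α ω) (51 / 50) ⟨41943, 75926, 80217, 27267, 119, 484, 36, 0, 0, 0⟩ :=
  regIn_sound (rkx h) (b := ⟨65537, 262147, -12846, 64, 280, 247844, 2485, 4, 12846, 257784⟩)
    (M := ⟨11472583643, 228266956941, 4773493815627, 1010222674, 63770840532, 2763726209085,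
      6591209759, 447799405298, 25085513316⟩)
    (by decide +kernel)

theorem rb_b2 {α ω : ℝ} (h : Consts α ω) :
    RegB (DX α ω) (51 / 50) ⟨75926, 115343, 83362, 29979, 165, 438, 39, 0, 0, 0⟩ :=
  regIn_sound (rkx h) (b := ⟨65537, 262147, -12846, 65, 278, 229140, 2339, 8, 12846, 247852⟩)
    (M := ⟨9311281518, 136360883966, 2526431153063, 775196611, 48030739128, 2061969387484, 5675894433,
      380285460276, 23497432534⟩)
    (by decide +kernel)

theorem rb_b3 {α ω : ℝ} (h : Consts α ω) :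
    RegB (DX α ω) (51 / 50) ⟨115343, 146801, 81789, 23128, 145, 278, 28, 0, 0, 0⟩ :=
  regIn_sound (rkx h) (b := ⟨65537, 262147, -12846, 43, 418, 208680, 2047, 10, 12846, 229150⟩)
    (M := ⟨6597935040, 61994695347, 1494962802300, 402623790, 24723266177, 1048606775903, 4072326645,
      265197220346, 20429874684⟩)
    (by decide +kernel)

theorem ro_b0 {α ω : ℝ} (h : Consts α ω) (s : ℕ) :
    RegOk (DX α ω) (51 / 50)
      ⟨0, 41943, 80217, 20848, 62, 439, 26, 0, 1099511628, s⟩ :=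
  ⟨(rb_b0 h).semi, (rb_b0 h).lip, (rb_b0 h).xb1,
    slivC_sound (rkx h)
      (g := ⟨0, 41943, 80217, 20848, 62, 439, 26, 0, 1099511628, 0⟩)
      (r1 := 0)
      (l := [])
      (by decide +kernel)⟩

theorem ro_b1 {α ω : ℝ} (h : Consts α ω) (s : ℕ) :
    RegOk (DX α ω) (51 / 50)
      ⟨41943, 75926, 80217, 27267, 119, 484, 36, 0, 1099511628, s⟩ :=
  ⟨(rb_b1 h).semi, (rb_b1 h).lip, (rb_b1 h).xb1,
    slivC_sound (rkx h)
      (g := ⟨41943, 75926, 80217, 27267, 119, 484, 36, 0, 1099511628, 0⟩)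
      (r1 := 0)
      (l := [])
      (by decide +kernel)⟩

theorem ro_b2 {α ω : ℝ} (h : Consts α ω) (s : ℕ) :
    RegOk (DX α ω) (51 / 50)
      ⟨75926, 115343, 83362, 29979, 165, 438, 39, 0, 1099511628, s⟩ :=
  ⟨(rb_b2 h).semi, (rb_b2 h).lip, (rb_b2 h).xb1,
    slivC_sound (rkx h)
      (g := ⟨75926, 115343, 83362, 29979, 165, 438, 39, 0, 1099511628, 0⟩)
      (r1 := 0)
      (l := [])
      (by decide +kernel)⟩

theorem ro_b3 {α ω : ℝ} (h : Consts α ω) (s : ℕ) :
    RegOk (DX α ω) (51 / 50)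
      ⟨115343, 146801, 81789, 23128, 145, 278, 28, 0, 1099511628, s⟩ :=
  ⟨(rb_b3 h).semi, (rb_b3 h).lip, (rb_b3 h).xb1,
    slivC_sound (rkx h)
      (g := ⟨115343, 146801, 81789, 23128, 145, 278, 28, 0, 1099511628, 0⟩)
      (r1 := 0)
      (l := [])
      (by decide +kernel)⟩

end Pool.Agent.H44.ShoreN
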