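import Mathlib
import Pool.Agent.H44.ShoreN.RegK

/-!
Shoreline search: the regions of the exact certificate.
-/

namespace Pool.Agent.H44.ShoreN

open Pool.Agent.H65.Shore (RegOk Reg)
open Pool.Agent.H4.Shore (Consts)
open Pool.Agent.H44.Shore Pool.Agent.H44.Shore.MBC

theorem rb_b4 {α ω : ℝ} (h : Consts α ω) :
    RegB (DX α ω) (51 / 50) ⟨146801, 178258, 80741, 15468, 142, 177, 23, 0, 0, 0⟩ :=
  regIn_sound (rkx h) (b := ⟨65537, 262147, -12846, 32, 560, 183312, 1586, 16, 12846, 208688⟩)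
    (M := ⟨5693266797, 59420951799, 1696926161523, 178558788, 8063315931, 347364439864, 2613935533,
      158660915960, 17134269791⟩)
    (by decide +kernel)

theorem ro_b4 {α ω : ℝ} (h : Consts α ω) (s : ℕ) :
    RegOk (DX α ω) (51 / 50)
      ⟨146801, 178258, 80741, 15468, 142, 177, 23, 0, 1099511628, s⟩ :=
  ⟨(rb_b4 h).semi, (rb_b4 h).lip, (rb_b4 h).xb1,
    slivC_sound (rkx h)
      (g := ⟨146801, 178258, 80741, 15468, 142, 177, 23, 0, 1099511628, 0⟩)
      (r1 := 0)
      (l := [])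
      (by decide +kernel)⟩

end Pool.Agent.H44.ShoreN
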