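import Mathlib
import Pool.Agent.H44.ShoreN.RegK

/-!
Shoreline search: the regions of the exact certificate.
-/

namespace Pool.Agent.H44.ShoreN

open Pool.Agent.H65.Shore (RegOk Reg)
open Pool.Agent.H4.Shore (Consts)
open Pool.Agent.H44.Shore Pool.Agent.H44.Shore.MBC

theorem rb_b11 {α ω : ℝ} (h : Consts α ω) :
    RegB (DX α ω) (51 / 50) ⟨272630, 293601, 80741, 45834, 1770, 694, 150, 0, 0, 0⟩ :=
  regIn_sound (rkx h) (b := ⟨65537, 262147, -12846, 128, 140, 48284, 3683, 8, 12846, 77748⟩)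
    (M := ⟨8464452395, 291052527770, 8080312364114, 421988134, 19128549706, 1075793548581, 1115427675,
      55646755577, 9066846103⟩)
    (by decide +kernel)

theorem rb_b12 {α ω : ℝ} (h : Consts α ω) :
    RegB (DX α ω) (51 / 50) ⟨293601, 325059, 80741, 83863, 2803, 980, 225, 0, 0, 0⟩ :=
  regIn_sound (rkx h) (b := ⟨65537, 262147, -12846, 128, 140, 0, 4829, 10, 12846, 48290⟩)
    (M := ⟨9378116754, 416258906269, 11307020470614, 361161850, 19331457524, 1065103664552,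
      2453667206, 206391577733, 16727680732⟩)
    (by decide +kernel)

theorem rb_b13 {α ω : ℝ} (h : Consts α ω) :
    RegB (DX α ω) (51 / 50) ⟨325059, 419430, 80741, 16412, 3195, 580, 241, 0, 0, 0⟩ :=
  regOut_sound (rkx h) (b := ⟨65537, 262147, -12846, 895, 20, 0, 1, 1, 12846, 1⟩)
    (M := ⟨9543069533, 415249591479, 11261753240349, 0, 0, 0, 0, 0, 0⟩)
    (by decide +kernel)

theorem rb_b14 {α ω : ℝ} (h : Consts α ω) :
    RegB (DX α ω) (51 / 50) ⟨419430, 629146, 81789, 18610, 7596, 660, 405, 0, 0, 0⟩ :=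
  regOut_sound (rkx h) (b := ⟨65537, 262147, -12846, 898, 20, 0, 1, 1, 12846, 1⟩)
    (M := ⟨9546053350, 415278610099, 11261887375068, 0, 0, 0, 0, 0, 0⟩)
    (by decide +kernel)

theorem rb_b15 {α ω : ℝ} (h : Consts α ω) :
    RegB (DX α ω) (51 / 50) ⟨629146, 1048576, 82838, 23007, 24656, 821, 830, 0, 0, 0⟩ :=
  regOut_sound (rkx h) (b := ⟨65537, 262147, -12846, 902, 20, 0, 1, 1, 12846, 1⟩)
    (M := ⟨9549826429, 415317452647, 11262066919588, 0, 0, 0, 0, 0, 0⟩)
    (by decide +kernel)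

theorem rb_r0 {α ω : ℝ} (h : Consts α ω) :
    RegB (DX α ω) (51 / 50) ⟨211634, 224217, 78119, 11596, 190, 131, 23, 0, 0, 0⟩ :=
  regIn_sound (rkx h) (b := ⟨65537, 262147, -12846, 43, 413, 137420, 1361, 10, 12846, 151030⟩)
    (M := ⟨6081940059, 40796609425, 1598106888494, 331047065, 4738631438, 248241878268, 876078012,
      57718553543, 8014914983⟩)
    (by decide +kernel)

theorem ro_b15 {α ω : ℝ} (h : Consts α ω) (s : ℕ) :
    RegOk (DX α ω) (51 / 50)
      ⟨272630, 293601, 80741, 45834, 1770, 694, 150, 0, 1099511628, s⟩ :=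
  ⟨(rb_b11 h).semi, (rb_b11 h).lip, (rb_b11 h).xb1,
    slivC_sound (rkx h)
      (g := ⟨272630, 293601, 80741, 45834, 1770, 694, 150, 0, 1099511628, 0⟩)
      (r1 := 272630)
      (l := [(293601, [(1099511628, ⟨⟨65537, 262147, -12846, 67, 1, 48284, 1842, 16, 12846,
      77756⟩, -3984709641, -1720848201, 32583371⟩)])])
      (by decide +kernel)⟩

theorem ro_b16 {α ω : ℝ} (h : Consts α ω) (s : ℕ) :
    RegOk (DX α ω) (51 / 50)
      ⟨293601, 325059, 80741, 83863, 2803, 980, 225, 0, 1099511628, s⟩ :=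
  ⟨(rb_b12 h).semi, (rb_b12 h).lip, (rb_b12 h).xb1,
    slivC_sound (rkx h)
      (g := ⟨293601, 325059, 80741, 83863, 2803, 980, 225, 0, 1099511628, 0⟩)
      (r1 := 293601)
      (l := [(309330, [(1099511628, ⟨⟨65537, 262147, -12846, 67, 1, 24755, 3922, 6, 12846,
      48287⟩, -2305093355, -103321766, 60412432⟩)]), (325059, [(1099511628, ⟨⟨65537, 262147,
      -12846, 67, 1, 0, 4126, 6, 12846, 24756⟩, -860398150, 574402423, 52834424⟩)])])
      (by decide +kernel)⟩

theorem ro_b17 {α ω : ℝ} (h : Consts α ω) (s : ℕ) :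
    RegOk (DX α ω) (51 / 50)
      ⟨325059, 419430, 80741, 16412, 3195, 580, 241, 0, 3298534884, s⟩ :=
  ⟨(rb_b13 h).semi, (rb_b13 h).lip, (rb_b13 h).xb1,
    slivC_sound (rkx h)
      (g := ⟨325059, 419430, 80741, 16412, 3195, 580, 241, 0, 3298534884, 0⟩)
      (r1 := 325059)
      (l := [(419430, [(3298534884, ⟨⟨65537, 262147, -12846, 198, 1, 0, 1, 1, 12846, 1⟩,
      -806973816, 433391553, 23844⟩)])])
      (by decide +kernel)⟩

theorem ro_b18 {α ω : ℝ} (h : Consts α ω) (s : ℕ) :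
    RegOk (DX α ω) (51 / 50)
      ⟨419430, 629146, 81789, 18610, 7596, 660, 405, 0, 4398046512, s⟩ :=
  ⟨(rb_b14 h).semi, (rb_b14 h).lip, (rb_b14 h).xb1,
    slivC_sound (rkx h)
      (g := ⟨419430, 629146, 81789, 18610, 7596, 660, 405, 0, 4398046512, 0⟩)
      (r1 := 419430)
      (l := [(629146, [(4398046512, ⟨⟨65537, 262147, -12846, 263, 1, 0, 1, 1, 12846, 1⟩,
      -1195149024, 452296847, 24640⟩)])])
      (by decide +kernel)⟩

theorem ro_b19 {α ω : ℝ} (h : Consts α ω) (s : ℕ) :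
    RegOk (DX α ω) (51 / 50)
      ⟨629146, 1048576, 82838, 23007, 24656, 821, 830, 0, 6597069767, s⟩ :=
  ⟨(rb_b15 h).semi, (rb_b15 h).lip, (rb_b15 h).xb1,
    slivC_sound (rkx h)
      (g := ⟨629146, 1048576, 82838, 23007, 24656, 821, 830, 0, 6597069767, 0⟩)
      (r1 := 629146)
      (l := [(1048576, [(6597069767, ⟨⟨65537, 262147, -12846, 394, 1, 0, 1, 1, 12846, 1⟩,
      -1962001082, 506597594, 26272⟩)])])
      (by decide +kernel)⟩

theorem ro_r0 {α ω : ℝ} (h : Consts α ω) (s : ℕ) :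
    RegOk (DX α ω) (51 / 50)
      ⟨211634, 224217, 78119, 11596, 190, 131, 23, 0, 329853489, s⟩ :=
  ⟨(rb_r0 h).semi, (rb_r0 h).lip, (rb_r0 h).xb1,
    slivC_sound (rkx h)
      (g := ⟨211634, 224217, 78119, 11596, 190, 131, 23, 0, 329853489, 0⟩)
      (r1 := 211634)
      (l := [(214779, [(329853489, ⟨⟨65537, 262147, -12846, 11, 2, 147700, 416, 8, 12846,
      151028⟩, -5379352319, -5316440795, 2110139⟩)]), (217925, [(329853489, ⟨⟨65537, 262147,
      -12846, 3, 7, 144322, 423, 8, 12846, 147706⟩, -5406876839, -5352256184, 1585508⟩)]),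
      (221071, [(329853489, ⟨⟨65537, 262147, -12846, 6, 4, 140896, 286, 12, 12846, 144328⟩,
      -5426440106, -5384707328, 1160246⟩)]), (224217, [(329853489, ⟨⟨65537, 262147, -12846, 3, 7,
      137420, 290, 12, 12846, 140900⟩, -5437466600, -5406114016, 798704⟩)])])
      (by decide +kernel)⟩

end Pool.Agent.H44.ShoreN
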