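import Mathlib
import Pool.Agent.H44.ShoreN.RegX0
import Pool.Agent.H44.ShoreN.RegX1
import Pool.Agent.H44.ShoreN.RegX2
import Pool.Agent.H44.ShoreN.RegX3
import Pool.Agent.H44.ShoreN.RegX4
import Pool.Agent.H81.Shore.AsmX
import Pool.Agent.H4.Shore.RingData

/-!
Shoreline search: all the regions of the exact certificate.
-/

namespace Pool.Agent.H44.ShoreN

open Pool.Agent.H65.Shore (RegOk Reg)
open Pool.Agent.H4.Shore (Consts)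
open Pool.Agent.H44.Shore Pool.Agent.H44.Shore.MBC

theorem regsX {α ω : ℝ} (h : Consts α ω) : Pool.Agent.H81.Shore.RegsX (DX α ω) where
  r0 := ro_b0 h 0
  r1 := ro_b0 h 0
  r2 := ro_b1 h 0
  r3 := ro_b1 h 0
  r4 := ro_b1 h 0
  r5 := ro_b2 h 0
  r6 := ro_b2 h 0
  r7 := ro_b2 h 0
  r8 := ro_b3 h 0
  r9 := ro_b3 h 0
  r10 := ro_b4 h 0
  r11 := ro_b4 h 0
  r12 := ro_b4 h 0
  r13 := ro_b5 h 0
  r14 := ro_b5 h 0
  r15 := ro_b6 h 0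
  r16 := ro_b7 h 0
  r17 := ro_b8 h 0
  r18 := ro_b9 h 0
  r19 := ro_b10 h 0
  r20 := ro_b11 h 0
  r21 := ro_b11 h 0
  r22 := ro_b12 h 0
  r23 := ro_b12 h 0
  r24 := ro_b13 h 0
  r25 := ro_b14 h 0
  r26 := ro_b15 h 0
  r27 := ro_b15 h 0
  r28 := ro_b16 h 0
  r29 := ro_b16 h 0
  r30 := ro_b17 h 0
  r31 := ro_b18 h 0
  r32 := ro_b19 h 0

theorem regR {α ω : ℝ} (h : Consts α ω) :
    RegOk (DX α ω) (51 / 50) Pool.Agent.H4.Shore.gR := ro_r0 h 0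

end Pool.Agent.H44.ShoreN
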