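import Mathlib
import Pool.Agent.H44.Shore.Sup
import Pool.Agent.H65.Shore.TanTab

/-!
Shoreline search: range check of an integer polynomial at all the points of an arithmetic
progression at once (lanes of one natural number), through the Newton form.
-/

open Set Polynomial

namespace Pool.Agent.H44.ShoreN

open Pool.Agent.H44.Shore Pool.Agent.H44.Shore.MBC
open Pool.Agent.H65.Shore (packN packZ ones packN_snoc packZ_add packZ_mul packZ_congr packZ_cast
  packZ_const packZ_toNat packZ_sub testBit_packN ones_div packN_eq_sum)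

/-! ### Newton form -/

/-- `∑ l_i (k choose (j + i))` -/
def nev (k : ℕ) : ℕ → List ℤ → ℤ
  | _, [] => 0
  | j, d :: ds => d * (k.choose j : ℤ) + nev k (j + 1) ds

/-- multiplication by `a + st k` of a Newton form -/
def mulY (st : ℤ) : ℤ → ℤ → ℤ → List ℤ → List ℤ
  | _, b, pr, [] => [Int.mul b pr]
  | a, b, pr, d :: ds => Int.add (Int.mul a d) (Int.mul b pr) ::
      mulY st (Int.add a st) (Int.add b st) d ds

def mulYK (st : ℤ) : ℤ → ℤ → ℤ → List ℤ → (List ℤ → Bool) → Bool
  | _, b, pr, [], k => seqI (Int.mul b pr) fun v => k [v]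
  | a, b, pr, d :: ds, k => seqI (Int.add (Int.mul a d) (Int.mul b pr)) fun v =>
      seqI (Int.add a st) fun a' => seqI (Int.add b st) fun b' =>
      mulYK st a' b' d ds fun t => k (v :: t)

theorem mulYK_eq (st : ℤ) (l : List ℤ) : ∀ (a b pr : ℤ) (k : List ℤ → Bool),
    mulYK st a b pr l k = k (mulY st a b pr l) := by
  induction l with
  | nil =>
    intro a b pr k
    simp only [mulYK, seqI_eq, mulY]
  | cons d ds ih =>
    intro a b pr k
    simp only [mulYK, seqI_eq, mulY, ih]

theorem choose_mul (k j : ℕ) : ((j:ℤ) + 1) * (k.choose (j + 1) : ℤ) = ((k:ℤ) - j) * k.choose j := by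
  rcases le_or_gt j k with h | h
  · have h1 := Nat.choose_succ_right_eq k j
    have h2 : ((k - j : ℕ) : ℤ) = (k:ℤ) - j := by
      rw [Nat.cast_sub h]
    rw [← h2]
    have h3 : ((k.choose (j + 1) * (j + 1) : ℕ) : ℤ) = ((k.choose j * (k - j) : ℕ) : ℤ) := by
      rw [h1]
    push_cast at h3 ⊢
    linarith
  · rw [Nat.choose_eq_zero_of_lt h, Nat.choose_eq_zero_of_lt (by omega)]
    simp

theorem nev_mulY (st ys : ℤ) (k : ℕ) (l : List ℤ) : ∀ (j : ℕ) (pr : ℤ),
    nev k j (mulY st (ys + st * j) (st * j) pr l) =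
      (ys + st * k) * nev k j l + st * j * pr * k.choose j := by
  induction l with
  | nil =>
    intro j pr
    have e : Int.mul (st * j) pr = st * j * pr := rfl
    rw [mulY, nev, nev, nev, e]
    ring
  | cons d ds ih =>
    intro j pr
    have e1 : Int.add (Int.mul (ys + st * j) d) (Int.mul (st * j) pr) =
      (ys + st * j) * d + st * j * pr := rfl
    have e2 : Int.add (ys + st * j) st = ys + st * ((j + 1 : ℕ) : ℤ) := by
      show ys + st * j + st = _
      push_cast
      ring
    have e3 : Int.add (st * j) st = st * ((j + 1 : ℕ) : ℤ) := by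
      show st * j + st = _
      push_cast
      ring
    rw [mulY, nev, nev, e1, e2, e3, ih (j + 1) d]
    have h := choose_mul k j
    push_cast
    linear_combination (st * d) * h

/-- add a constant to the head -/
def addH (c : ℤ) : List ℤ → List ℤ
  | [] => [c]
  | d :: ds => Int.add c d :: ds

theorem nev_addH (k : ℕ) (c : ℤ) (l : List ℤ) : nev k 0 (addH c l) = c + nev k 0 l := by
  cases l with
  | nil => simp [addH, nev]
  | cons d ds =>
    have e : Int.add c d = c + d := rfl
    rw [addH, nev, nev, e]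
    simp
    ring

/-- the Newton form of a polynomial along `ys + st k` -/
def newt (ys st : ℤ) : List ℤ → List ℤ
  | [] => []
  | c :: q => addH c (mulY st ys 0 0 (newt ys st q))

def addHK (c : ℤ) : List ℤ → (List ℤ → Bool) → Bool
  | [], k => k [c]
  | d :: ds, k => seqI (Int.add c d) fun v => k (v :: ds)

theorem addHK_eq (c : ℤ) (l : List ℤ) (k : List ℤ → Bool) : addHK c l k = k (addH c l) := by
  cases l with
  | nil => rfl
  | cons d ds => simp only [addHK, seqI_eq, addH]

def newtK (ys st : ℤ) : List ℤ → (List ℤ → Bool) → Bool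
  | [], k => k []
  | c :: q, k => newtK ys st q fun N => mulYK st ys 0 0 N fun M => addHK c M k

theorem newtK_eq (ys st : ℤ) (p : List ℤ) : ∀ k : List ℤ → Bool,
    newtK ys st p k = k (newt ys st p) := by
  induction p with
  | nil => intro k; rfl
  | cons c q ih =>
    intro k
    rw [newtK, ih, mulYK_eq, addHK_eq, newt]

theorem nev_newt (ys st : ℤ) (k : ℕ) (p : List ℤ) :
    nev k 0 (newt ys st p) = evI p (ys + st * k) := by
  induction p with
  | nil => rfl
  | cons c q ih =>
    have h := nev_mulY st ys k (newt ys st q) 0 0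
    simp only [Nat.cast_zero, mul_zero, add_zero, zero_mul] at h
    rw [newt, nev_addH, h, ih]
    rfl

/-! ### Packed binomial coefficients -/

theorem bin_rec (L n j : ℕ) : (2 ^ L - 1) * packN L n (fun k => k.choose (j + 1)) +
    2 ^ L * packN L n (fun k => k.choose j) = (2 ^ L) ^ n * n.choose (j + 1) := by
  have hz : 1 ≤ 2 ^ L := Nat.one_le_two_pow
  obtain ⟨z, hz'⟩ : ∃ z, 2 ^ L = z + 1 := ⟨2 ^ L - 1, by omega⟩
  induction n with
  | zero => simp [packN]
  | succ n ih =>
    rw [packN_snoc, packN_snoc, Nat.choose_succ_succ]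
    rw [hz'] at ih ⊢
    simp only [Nat.add_sub_cancel] at ih ⊢
    calc z * (packN L n (fun k => k.choose (j + 1)) + (z + 1) ^ n * n.choose (j + 1)) +
        (z + 1) * (packN L n (fun k => k.choose j) + (z + 1) ^ n * n.choose j)
        = (z * packN L n (fun k => k.choose (j + 1)) + (z + 1) *
          packN L n (fun k => k.choose j)) + z * ((z + 1) ^ n * n.choose (j + 1)) +
          (z + 1) * ((z + 1) ^ n * n.choose j) := by ring
      _ = (z + 1) ^ n * n.choose (j + 1) + z * ((z + 1) ^ n * n.choose (j + 1)) +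
          (z + 1) * ((z + 1) ^ n * n.choose j) := by rw [ih]
      _ = (z + 1) ^ (n + 1) * (n.choose j + n.choose (j + 1)) := by ring

theorem bin_step {L n j : ℕ} (hL : 0 < L) : Nat.div (Nat.sub (Nat.mul ((2 ^ L) ^ n)
    (n.choose (j + 1))) (Nat.mul (2 ^ L) (packN L n (fun k => k.choose j)))) (2 ^ L - 1) =
    packN L n (fun k => k.choose (j + 1)) := by
  have h := bin_rec L n j
  have h1 : 2 ≤ 2 ^ L := by
    calc 2 = 2 ^ 1 := rfl
      _ ≤ 2 ^ L := Nat.pow_le_pow_right (by norm_num) hL
  show ((2 ^ L) ^ n * n.choose (j + 1) - 2 ^ L * packN L n (fun k => k.choose j)) /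
    (2 ^ L - 1) = _
  rw [← h, Nat.add_sub_cancel, Nat.mul_div_cancel_left _ (by omega)]

/-- description of the table -/
def BT (L n : ℕ) : ℕ → List ℕ → Prop
  | _, [] => True
  | j, B :: Bs => B = packN L n (fun k => k.choose j) ∧ BT L n (j + 1) Bs

/-- table of the packed binomial coefficients, in continuation form; the list is built from the
first member -/
def binK (L n zn z z1 : ℕ) : ℕ → ℕ → ℕ → ℕ → (List ℕ → Bool) → Bool
  | 0, _, _, B, k => k [B]
  | f + 1, j, c, B, k =>
    seqN (Nat.div (Nat.mul c (Nat.sub n j)) (Nat.succ j)) fun c' =>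
    seqN (Nat.div (Nat.sub (Nat.mul zn c') (Nat.mul z B)) z1) fun B' =>
    seqN (Nat.succ j) fun j' =>
    binK L n zn z z1 f j' c' B' fun Bs => k (B :: Bs)

theorem binK_sound {L n : ℕ} (hL : 0 < L) (f : ℕ) : ∀ {j c B : ℕ} {k : List ℕ → Bool},
    c = n.choose j → B = packN L n (fun k => k.choose j) →
    binK L n ((2 ^ L) ^ n) (2 ^ L) (2 ^ L - 1) f j c B k = true →
    ∃ Bs, BT L n j Bs ∧ k Bs = true := by
  induction f with
  | zero =>
    intro j c B k hc hB h
    exact ⟨[B], ⟨hB, trivial⟩, h⟩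
  | succ f ih =>
    intro j c B k hc hB h
    rw [binK] at h
    simp only [seqN_eq] at h
    have hc' : Nat.div (Nat.mul c (Nat.sub n j)) (Nat.succ j) = n.choose (j + 1) := by
      show c * (n - j) / (j + 1) = _
      rw [hc, ← Nat.choose_succ_right_eq, Nat.mul_div_cancel _ (Nat.succ_pos j)]
    have hB' := bin_step (L := L) (n := n) (j := j) hL
    rw [← hB] at hB'
    rw [hc', hB'] at h
    obtain ⟨Bs, h1, h2⟩ := ih (j := j + 1) rfl rfl h
    exact ⟨B :: Bs, ⟨hB, h1⟩, h2⟩

/-- the packed values -/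
def dotK : List ℤ → List ℕ → ℤ → (ℤ → Bool) → Bool
  | [], _, acc, k => k acc
  | _ :: _, [], _, _ => false
  | d :: ds, B :: Bs, acc, k => seqI (Int.add acc (Int.mul d (Int.ofNat B))) fun v =>
      dotK ds Bs v k

theorem dotK_sound {L n : ℕ} (D : List ℤ) : ∀ {j : ℕ} {Bs : List ℕ} {acc : ℤ}
    {k : ℤ → Bool}, BT L n j Bs → dotK D Bs acc k = true →
    k (acc + packZ L n (fun i => nev i j D)) = true := by
  induction D with
  | nil =>
    intro j Bs acc k _ h
    have e : packZ L n (fun i => nev i j []) = 0 := by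
      simp [nev, packZ]
    rw [e, add_zero]
    cases Bs <;> exact h
  | cons d ds ih =>
    intro j Bs acc k hB h
    cases Bs with
    | nil => exact absurd h (by simp [dotK])
    | cons B Bs =>
      obtain ⟨h1, h2⟩ := hB
      rw [dotK] at h
      simp only [seqI_eq] at h
      have h3 := ih h2 h
      have e : acc + packZ L n (fun i => nev i j (d :: ds)) =
          Int.add acc (Int.mul d (Int.ofNat B)) + packZ L n (fun i => nev i (j + 1) ds) := by
        show _ = acc + d * (B : ℤ) + _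
        rw [h1]
        have e1 : packZ L n (fun i => nev i j (d :: ds)) =
            packZ L n (fun i => (i.choose j : ℤ) * d + nev i (j + 1) ds) := by
          apply packZ_congr
          intro i _
          rw [nev]
          ring
        rw [e1, packZ_add, packZ_mul, packZ_cast L n (fun i => i.choose j)]
        ring
      rw [e]
      exact h3

/-- all lanes have the top bit -/
def topB (HO : ℕ) (X : ℤ) : Bool := seqN X.toNat fun Z => Nat.beq (Nat.land Z HO) HO

theorem topB_sound {L n : ℕ} (hL : 0 < L) {f : ℕ → ℤ} (hf : ∀ k < n, |f k| < 2 ^ (L - 1))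
    (h : topB (Nat.mul (2 ^ (L - 1)) (ones L n)) (packZ L n (fun k => f k + 2 ^ (L - 1))) = true) :
    ∀ k < n, 0 ≤ f k := by
  unfold topB at h
  rw [seqN_eq] at h
  have h1 : 2 ^ L = 2 * 2 ^ (L - 1) := by
    conv_lhs => rw [← Nat.sub_add_cancel hL]
    rw [pow_succ]
    ring
  have hpos : ∀ k < n, 0 ≤ f k + 2 ^ (L - 1) := by
    intro k hk
    have := (abs_lt.mp (hf k hk)).1
    linarith
  rw [packZ_toNat hpos] at h
  set g : ℕ → ℕ := fun k => (f k + 2 ^ (L - 1)).toNat with hg
  have hgl : ∀ k < n, g k < 2 ^ L := by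
    intro k hk
    have h2 := (abs_lt.mp (hf k hk)).2
    have h3 : ((g k : ℕ) : ℤ) = f k + 2 ^ (L - 1) := Int.toNat_of_nonneg (hpos k hk)
    have h4 : ((g k : ℕ) : ℤ) < ((2 ^ L : ℕ) : ℤ) := by
      rw [h3, h1]
      push_cast
      linarith
    exact_mod_cast h4
  have h5 : Nat.land (packN L n g) (Nat.mul (2 ^ (L - 1)) (ones L n)) =
      Nat.mul (2 ^ (L - 1)) (ones L n) := Nat.eq_of_beq_eq_true h
  have e2 : Nat.mul (2 ^ (L - 1)) (ones L n) = packN L n (fun _ => 2 ^ (L - 1)) := by
    have := Pool.Agent.H65.Shore.packN_mul L n (fun _ => 1) (2 ^ (L - 1))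
    simp only [one_mul] at this
    rw [this]
    show 2 ^ (L - 1) * ones L n = _
    rw [ones, mul_comm]
  rw [e2] at h5
  intro k hk
  have hbit := congrArg (fun z => Nat.testBit z (L * k + (L - 1))) h5
  have hidx : (L * k + (L - 1)) / L = k := by
    rw [Nat.mul_add_div hL, Nat.div_eq_of_lt (by omega), add_zero]
  have hmod : (L * k + (L - 1)) % L = L - 1 := by
    rw [Nat.mul_add_mod, Nat.mod_eq_of_lt (by omega)]
  have hbit2 : (packN L n g).testBit (L * k + (L - 1)) = true := by
    have e3 : Nat.testBit (Nat.land (packN L n g) (packN L n fun _ => 2 ^ (L - 1)))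
        (L * k + (L - 1)) = ((packN L n g).testBit (L * k + (L - 1)) &&
          (packN L n fun _ => 2 ^ (L - 1)).testBit (L * k + (L - 1))) := Nat.testBit_and _ _ _
    have hbit : Nat.testBit (Nat.land (packN L n g) (packN L n fun _ => 2 ^ (L - 1)))
        (L * k + (L - 1)) = Nat.testBit (packN L n fun _ => 2 ^ (L - 1)) (L * k + (L - 1)) := hbit
    rw [e3, testBit_packN hL (f := fun _ => 2 ^ (L - 1)) (fun j _ => by
      rw [h1]; have : 0 < 2 ^ (L - 1) := by positivity
      omega), hidx, hmod] at hbit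
    simpa [hk] using hbit
  rw [testBit_packN hL hgl, hidx, hmod] at hbit2
  simp only [Bool.and_eq_true, decide_eq_true_eq] at hbit2
  have h6 := Nat.ge_two_pow_of_testBit hbit2.2
  have h3 : ((g k : ℕ) : ℤ) = f k + 2 ^ (L - 1) := Int.toNat_of_nonneg (hpos k hk)
  have h7 : ((2 ^ (L - 1) : ℕ) : ℤ) ≤ ((g k : ℕ) : ℤ) := by exact_mod_cast h6
  rw [h3] at h7
  push_cast at h7
  linarith

/-- check of a slice -/
def slice (Bs : List ℕ) (HO : ℕ) (LOo HIo ys st : ℤ) (p : List ℤ) : Bool :=
  newtK ys st p fun N => dotK N Bs 0 fun V =>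
    match topB HO (Int.sub V LOo) with
    | false => false
    | true => topB HO (Int.sub HIo V)

theorem slice_sound {L n : ℕ} (hL : 0 < L) {Bs : List ℕ} (hB : BT L n 0 Bs) {lo hi ys st : ℤ}
    {p : List ℤ} (h1 : ∀ k < n, |evI p (ys + st * k) - lo| < 2 ^ (L - 1))
    (h2 : ∀ k < n, |hi - evI p (ys + st * k)| < 2 ^ (L - 1))
    (h : slice Bs (Nat.mul (2 ^ (L - 1)) (ones L n)) ((lo - 2 ^ (L - 1)) * (ones L n : ℤ))
      ((hi + 2 ^ (L - 1)) * (ones L n : ℤ)) ys st p = true) :
    ∀ k < n, lo ≤ evI p (ys + st * k) ∧ evI p (ys + st * k) ≤ hi := by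
  unfold slice at h
  rw [newtK_eq] at h
  have h3 := dotK_sound _ hB h
  rw [zero_add] at h3
  have eV : packZ L n (fun i => nev i 0 (newt ys st p)) =
      packZ L n (fun i => evI p (ys + st * i)) :=
    packZ_congr fun i _ => nev_newt ys st i p
  rw [eV] at h3
  have e1 : Int.sub (packZ L n (fun i => evI p (ys + st * i)))
      ((lo - 2 ^ (L - 1)) * (ones L n : ℤ)) =
      packZ L n (fun i => (evI p (ys + st * i) - lo) + 2 ^ (L - 1)) := by
    show packZ L n (fun i => evI p (ys + st * i)) - (lo - 2 ^ (L - 1)) * (ones L n : ℤ) = _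
    rw [← packZ_const, ← packZ_sub]
    apply packZ_congr
    intro i _
    ring
  have e2 : Int.sub ((hi + 2 ^ (L - 1)) * (ones L n : ℤ))
      (packZ L n (fun i => evI p (ys + st * i))) =
      packZ L n (fun i => (hi - evI p (ys + st * i)) + 2 ^ (L - 1)) := by
    show (hi + 2 ^ (L - 1)) * (ones L n : ℤ) - packZ L n (fun i => evI p (ys + st * i)) = _
    rw [← packZ_const, ← packZ_sub]
    apply packZ_congr
    intro i _
    ring
  rw [e1, e2] at h3
  cases h4 : topB (Nat.mul (2 ^ (L - 1)) (ones L n))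
      (packZ L n (fun i => (evI p (ys + st * i) - lo) + 2 ^ (L - 1))) with
  | false => rw [h4] at h3; exact absurd h3 (by simp)
  | true =>
    rw [h4] at h3
    intro k hk
    have a := topB_sound hL h1 h4 k hk
    have b := topB_sound hL h2 h3 k hk
    constructor
    · linarith
    · linarith

/-- substitution of the second variable, forced -/
def colzK (z : ℤ) : List (List ℤ) → (List ℤ → Bool) → Bool
  | [], k => k []
  | p :: Q, k => colzK z Q fun S => seqL (axpy z S p) k

theorem colzK_eq (z : ℤ) (Q : List (List ℤ)) : ∀ k : List ℤ → Bool,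
    colzK z Q k = k (colz z Q) := by
  induction Q with
  | nil => intro k; rfl
  | cons p Q ih =>
    intro k
    rw [colzK, ih, seqL_eq, colz]

/-- all the slices -/
def chkP (Q : List (List ℤ)) (Bs : List ℕ) (HO : ℕ) (LOo HIo ys st g : ℤ) : ℕ → ℤ → Bool
  | 0, _ => true
  | m + 1, z => colzK z Q fun S => seqL (trim S) fun p =>
    match slice Bs HO LOo HIo ys st p with
    | false => false
    | true => seqI (Int.add z g) fun z' => chkP Q Bs HO LOo HIo ys st g m z'

theorem chkP_sound {L n : ℕ} (hL : 0 < L) {Bs : List ℕ} (hB : BT L n 0 Bs) {lo hi ys : ℤ}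
    {st g : ℕ} {Q : List (List ℤ)} {H G : ℕ} (hlo : bnd2 H G Q + lo.natAbs < 2 ^ (L - 1))
    (hhi : bnd2 H G Q + hi.natAbs < 2 ^ (L - 1)) (hH : ∀ k < n, |ys + (k:ℤ) * st| ≤ H) (m : ℕ) :
    ∀ {z : ℤ}, (∀ l < m, |z + (l:ℤ) * g| ≤ G) →
    chkP Q Bs (Nat.mul (2 ^ (L - 1)) (ones L n)) ((lo - 2 ^ (L - 1)) * (ones L n : ℤ))
      ((hi + 2 ^ (L - 1)) * (ones L n : ℤ)) ys (st : ℤ) (g : ℤ) m z = true →
    ∀ k < n, ∀ l < m, (lo:ℝ) ≤ ev2 Q (ys + k * st) (z + l * g) ∧
      ev2 Q (ys + k * st) (z + l * g) ≤ (hi:ℝ) := by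
  induction m with
  | zero => intro z _ _ k _ l hl; omega
  | succ m ih =>
    intro z hG h k hk l hl
    rw [chkP, colzK_eq, seqL_eq] at h
    cases h1 : slice Bs (Nat.mul (2 ^ (L - 1)) (ones L n))
        ((lo - 2 ^ (L - 1)) * (ones L n : ℤ)) ((hi + 2 ^ (L - 1)) * (ones L n : ℤ)) ys (st : ℤ)
        (trim (colz z Q)) with
    | false => rw [h1] at h; exact absurd h (by simp)
    | true =>
    rw [h1] at h
    simp only [seqI_eq] at h
    have hval : ∀ i : ℕ, ((evI (trim (colz z Q)) (ys + (st:ℤ) * i) : ℤ) : ℝ) =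
        ev2 Q (ys + i * st) z := by
      intro i
      rw [evI_cast, ev_trim, ev_colz]
      push_cast
      ring_nf
    have hz : |z| ≤ (G:ℤ) := by simpa using hG 0 (by omega)
    have hz' : |(z:ℝ)| ≤ G := by exact_mod_cast hz
    have hb : ∀ i < n, |evI (trim (colz z Q)) (ys + (st:ℤ) * i)| ≤ (bnd2 H G Q : ℤ) := by
      intro i hi
      have hy' : |((ys:ℝ) + i * st)| ≤ H := by exact_mod_cast hH i hi
      have h2 := abs_ev2_le H G Q hy' hz'
      rw [← hval i] at h2
      exact_mod_cast h2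
    cases l with
    | zero =>
      have hs := slice_sound hL hB (lo := lo) (hi := hi) (ys := ys) (st := (st:ℤ))
        (p := trim (colz z Q)) ?_ ?_ h1 k hk
      · rw [show (z:ℝ) + ((0:ℕ):ℝ) * g = z by simp, ← hval k]
        exact ⟨by exact_mod_cast hs.1, by exact_mod_cast hs.2⟩
      · intro i hi'
        have h2 := hb i hi'
        have h3 : (bnd2 H G Q : ℤ) + (lo.natAbs : ℤ) < 2 ^ (L - 1) := by exact_mod_cast hlo
        have h4 : |lo| = (lo.natAbs : ℤ) := Int.abs_eq_natAbs lo
        calc |evI (trim (colz z Q)) (ys + (st:ℤ) * i) - lo|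
            ≤ |evI (trim (colz z Q)) (ys + (st:ℤ) * i)| + |lo| := abs_sub _ _
          _ < 2 ^ (L - 1) := by rw [h4]; linarith
      · intro i hi'
        have h2 := hb i hi'
        have h3 : (bnd2 H G Q : ℤ) + (hi.natAbs : ℤ) < 2 ^ (L - 1) := by exact_mod_cast hhi
        have h4 : |hi| = (hi.natAbs : ℤ) := Int.abs_eq_natAbs hi
        calc |hi - evI (trim (colz z Q)) (ys + (st:ℤ) * i)|
            ≤ |hi| + |evI (trim (colz z Q)) (ys + (st:ℤ) * i)| := abs_sub _ _
          _ < 2 ^ (L - 1) := by rw [h4]; linarith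
    | succ l =>
      have e : Int.add z (g : ℤ) = z + (g : ℤ) := rfl
      rw [e] at h
      have h3 := ih (z := z + (g:ℤ)) (fun l' hl' => by
        have h4 := hG (l' + 1) (by omega)
        have e5 : z + (g:ℤ) + (l':ℤ) * g = z + ((l' + 1 : ℕ) : ℤ) * g := by
          push_cast
          ring
        rw [e5]
        exact h4) h k hk l (by omega)
      have e1 : ((z + (g:ℤ) : ℤ) : ℝ) + (l:ℝ) * g = (z:ℝ) + ((l + 1 : ℕ) : ℝ) * g := by
        push_cast
        ring
      rw [e1] at h3
      exact h3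

end Pool.Agent.H44.ShoreN
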