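import Mathlib
import Pool.Agent.H44.Shore.Reg
import Pool.Agent.H44.ShoreN.Pk

/-!
Shoreline search: kernel check of the constants of a region of radii (packed lanes, general
denominators).
-/

open Set Polynomial

namespace Pool.Agent.H44.ShoreN

open Pool.Agent.H65.Shore (Dq apx_q RegOk Reg)
open Pool.Agent.H44.Shore Pool.Agent.H44.Shore.MBC

/-- scaled coefficient lists of the partial derivative `(i, j)`, denominators `s` and `q` -/
def genD (L : List (List ℤ)) (s q i j : ℕ) : List (List ℤ) :=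
  mk (fun n => mk (fun m => Int.mul (Int.mul ((Nat.mul ((n + j).descFactorial j)
    ((m + i).descFactorial i) : ℕ) : ℤ) (gc L (n + j) (m + i)))
    ((Nat.mul (Nat.pow s (Nat.sub 7 m)) (Nat.pow q (Nat.sub 4 n)) : ℕ) : ℤ)) 8 0) 5 0

theorem ev2_genD (L : List (List ℤ)) (s q i j : ℕ) (x w : ℝ) :
    ev2 (genD L s q i j) (s * x) (q * w) = (s ^ 7 * q ^ 4) *
      ∑ n ∈ Finset.range 5, w ^ n * (((n + j).descFactorial j : ℝ) *
        ∑ m ∈ Finset.range 8, ((m + i).descFactorial i : ℝ) * (gc L (n + j) (m + i) : ℝ) *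
          x ^ m) := by
  unfold genD
  rw [ev2_mk, Finset.mul_sum]
  apply Finset.sum_congr rfl
  intro n hn
  rw [ev_mk, Finset.mul_sum, Finset.mul_sum, Finset.mul_sum, Finset.mul_sum]
  apply Finset.sum_congr rfl
  intro m hm
  have hn' : n < 5 := Finset.mem_range.mp hn
  have hm' : m < 8 := Finset.mem_range.mp hm
  have e : ((Int.mul (Int.mul ((Nat.mul ((0 + n + j).descFactorial j)
      ((0 + m + i).descFactorial i) : ℕ) : ℤ) (gc L (0 + n + j) (0 + m + i)))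
      ((Nat.mul (Nat.pow s (Nat.sub 7 (0 + m))) (Nat.pow q (Nat.sub 4 (0 + n))) : ℕ) :
        ℤ) : ℤ) : ℝ) = ((n + j).descFactorial j : ℝ) * ((m + i).descFactorial i : ℝ) *
      (gc L (n + j) (m + i) : ℝ) * ((s:ℝ) ^ (7 - m) * (q:ℝ) ^ (4 - n)) := by
    simp only [zero_add]
    show (((((n + j).descFactorial j * (m + i).descFactorial i : ℕ) : ℤ) *
      gc L (n + j) (m + i) * ((s ^ (7 - m) * q ^ (4 - n) : ℕ) : ℤ) : ℤ) : ℝ) = _
    push_cast
    ring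
  rw [e]
  have hs : (s:ℝ) ^ 7 = s ^ (7 - m) * s ^ m := by
    rw [← pow_add]
    congr 1
    omega
  have hq : (q:ℝ) ^ 4 = q ^ (4 - n) * q ^ n := by
    rw [← pow_add]
    congr 1
    omega
  rw [hs, hq, mul_pow, mul_pow]
  ring

/-- exact evaluation for the rational certificate -/
theorem bd_exactD {D : Dat} {L : List (List ℤ)} {C : ℕ} (hA : Apx D L C 0) {s q : ℕ}
    (hs : 0 < s) (hq : 0 < q) (i j : ℕ) (x w : ℝ) :
    D.bd i j x w = ev2 (genD L s q i j) (s * x) (q * w) / (2 ^ C * (s ^ 7 * q ^ 4)) := by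
  have hs' : (0:ℝ) < s := by exact_mod_cast hs
  have hq' : (0:ℝ) < q := by exact_mod_cast hq
  rw [bd_sum' hA.deg, ev2_genD]
  have hc : ∀ k m, cf D k m = (gc L k m : ℝ) / 2 ^ C := by
    intro k m
    have := abs_nonpos_iff.mp (hA.all k m)
    linarith
  have e : ∀ S : ℝ, ((s:ℝ) ^ 7 * q ^ 4) * S / (2 ^ C * (s ^ 7 * q ^ 4)) = S / 2 ^ C := by
    intro S
    field_simp
  rw [e, Finset.sum_div]
  apply Finset.sum_congr rfl
  intro n _
  rw [mul_div_assoc, mul_div_assoc, Finset.sum_div]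
  congr 2
  apply Finset.sum_congr rfl
  intro m _
  rw [hc]
  ring

/-- bound from the grid check, exact coefficients -/
theorem sup_chk {D : Dat} {L : List (List ℤ)} {C : ℕ} (hA : Apx D L C 0) {i j s q st g n m : ℕ}
    (hs : 0 < s) (hq : 0 < q)
    {ks zs lo hi : ℤ} {H G KX KW : ℕ} (hn : 0 < n) (hm : 0 < m) (hst : 0 < st) (hg : 0 < g)
    (hchk : ∀ k < n + 1, ∀ l < m + 1, (lo:ℝ) ≤ ev2 (genD L s q i j) (ks + k * st) (zs + l * g) ∧
      ev2 (genD L s q i j) (ks + k * st) (zs + l * g) ≤ (hi:ℝ))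
    (hH0 : -(H:ℤ) ≤ ks) (hH1 : ks + n * st ≤ H) (hG0 : -(G:ℤ) ≤ zs) (hG1 : zs + m * g ≤ G)
    (hKX : bnd2 H G (genD L s q (i + 2) j) ≤ KX) (hKW : bnd2 H G (genD L s q i (j + 2)) ≤ KW) :
    ∀ x ∈ Icc ((ks:ℝ) / s) ((ks + n * st) / s), ∀ w ∈ Icc ((zs:ℝ) / q)
      ((zs + m * g) / q),
      (lo - (KX * st ^ 2 / s ^ 2 + KW * g ^ 2 / q ^ 2) / 8) / (2 ^ C * (s ^ 7 * q ^ 4)) ≤
        D.bd i j x w ∧ D.bd i j x w ≤
      (hi + (KX * st ^ 2 / s ^ 2 + KW * g ^ 2 / q ^ 2) / 8) / (2 ^ C * (s ^ 7 * q ^ 4)) := by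
  have h2s : (0:ℝ) < s := by exact_mod_cast hs
  have h2q : (0:ℝ) < q := by exact_mod_cast hq
  have hS : (0:ℝ) < 2 ^ C * ((s:ℝ) ^ 7 * q ^ 4) := by positivity
  have hstr : (0:ℝ) < st := by exact_mod_cast hst
  have hgr : (0:ℝ) < g := by exact_mod_cast hg
  have eX : (ks:ℝ) / s + n * (st / s) = (ks + n * st) / s := by ring
  have eW : (zs:ℝ) / q + m * (g / q) = (zs + m * g) / q := by ring
  have hH0' : -(H:ℝ) ≤ ks := by exact_mod_cast hH0
  have hH1' : (ks:ℝ) + n * st ≤ H := by exact_mod_cast hH1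
  have hG0' : -(G:ℝ) ≤ zs := by exact_mod_cast hG0
  have hG1' : (zs:ℝ) + m * g ≤ G := by exact_mod_cast hG1
  have hcrude : ∀ i j K : ℕ, bnd2 H G (genD L s q i j) ≤ K →
      ∀ x ∈ Icc ((ks:ℝ) / s) ((ks:ℝ) / s + n * (st / s)),
      ∀ w ∈ Icc ((zs:ℝ) / q) ((zs:ℝ) / q + m * (g / q)),
      |D.bd i j x w| ≤ (K:ℝ) / (2 ^ C * (s ^ 7 * q ^ 4)) := by
    intro i j K hK x hx w hw
    rw [eX] at hx
    rw [eW] at hw
    rw [bd_exactD hA hs hq, abs_div, abs_of_pos hS]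
    apply div_le_div_of_nonneg_right _ hS.le
    have hx0 := (div_le_iff₀ h2s).mp hx.1
    have hx1 := (le_div_iff₀ h2s).mp hx.2
    have hw0 := (div_le_iff₀ h2q).mp hw.1
    have hw1 := (le_div_iff₀ h2q).mp hw.2
    have h := abs_ev2_le H G (genD L s q i j) (y := s * x) (z := q * w)
      (abs_le.mpr ⟨by linarith, by linarith⟩) (abs_le.mpr ⟨by linarith, by linarith⟩)
    exact h.trans (by exact_mod_cast hK)
  have key := bd_grid (D := D) (i := i) (j := j) (xa := (ks:ℝ) / s) (hx := st / s)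
    (wa := (zs:ℝ) / q) (hw := g / q) (n := n) (m := m)
    (lo := (lo:ℝ) / (2 ^ C * (s ^ 7 * q ^ 4))) (hi := (hi:ℝ) / (2 ^ C * (s ^ 7 * q ^ 4))) hn hm
    (by positivity) (by positivity) (hcrude (i + 2) j KX hKX) (hcrude i (j + 2) KW hKW) (by
      intro k hk l hl
      have h := hchk k (by omega) l (by omega)
      rw [bd_exactD hA hs hq]
      have e1 : (s:ℝ) * ((ks:ℝ) / s + k * (st / s)) = ks + k * st := by
        field_simp
      have e2 : (q:ℝ) * ((zs:ℝ) / q + l * (g / q)) = zs + l * g := by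
        field_simp
      rw [e1, e2]
      exact ⟨div_le_div_of_nonneg_right h.1 hS.le, div_le_div_of_nonneg_right h.2 hS.le⟩)
  intro x hx w hw
  rw [← eX] at hx
  rw [← eW] at hw
  have h := key x hx w hw
  have e3 : (((KX:ℝ) / (2 ^ C * (s ^ 7 * q ^ 4))) * (st / s) ^ 2 +
      (KW / (2 ^ C * (s ^ 7 * q ^ 4))) * (g / q) ^ 2) / 8 =
      ((KX * st ^ 2 / s ^ 2 + KW * g ^ 2 / q ^ 2) / 8) / (2 ^ C * (s ^ 7 * q ^ 4)) := by
    generalize (2:ℝ) ^ C * ((s:ℝ) ^ 7 * q ^ 4) = T at hS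
    field_simp
  rw [e3] at h
  constructor
  · rw [sub_div]; exact h.1
  · rw [add_div]; exact h.2

/-- a grid of points in the `(x, w)` plane: `x = (ks + k st) / s`, `w = (zs + l g) / q` -/
structure Bx where
  s : ℕ
  q : ℕ
  ks : ℤ
  st : ℕ
  n : ℕ
  zs : ℕ
  g : ℕ
  m : ℕ
  H : ℕ
  G : ℕ

/-- validity of the grid -/
def Bx.ok (b : Bx) : Bool :=
  Nat.ble 1 b.s && (Nat.ble 1 b.q && (Nat.ble 1 b.n && (Nat.ble 1 b.m && (Nat.ble 1 b.st &&
  (Nat.ble 1 b.g && (nn (Int.add b.ks (b.H : ℤ)) && (nn (Int.sub (b.H : ℤ) (Int.add b.ks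
    ((Nat.mul b.n b.st : ℕ) : ℤ))) && (Nat.ble (Nat.add b.zs (Nat.mul b.m b.g)) b.G &&
  (Nat.ble (Nat.mul 4 b.H) b.s && Nat.ble b.G b.q)))))))))

/-- the tables of packed binomial coefficients, for `n` lanes of width `W` -/
def withTab (W n : ℕ) (k : List ℕ → ℕ → Bool) : Bool :=
  seqN (Nat.pow 2 W) fun z => seqN (Nat.pow z n) fun zn => seqN (Nat.sub z 1) fun z1 =>
  seqN (Nat.div (Nat.sub (Nat.pow 2 (Nat.mul W n)) 1) z1) fun o =>
  binK W n zn z z1 7 0 1 o fun Bs => k Bs o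

theorem withTab_sound {W n : ℕ} (hW : 0 < W) {k : List ℕ → ℕ → Bool}
    (h : withTab W n k = true) :
    ∃ Bs, BT W n 0 Bs ∧ k Bs (Pool.Agent.H65.Shore.ones W n) = true := by
  unfold withTab at h
  simp only [seqN_eq] at h
  have e1 : Nat.div (Nat.sub (Nat.pow 2 (Nat.mul W n)) 1) (Nat.sub (Nat.pow 2 W) 1) =
    Pool.Agent.H65.Shore.ones W n := Pool.Agent.H65.Shore.ones_div hW
  rw [e1] at h
  refine binK_sound hW 7 (j := 0) (c := 1) (by simp) ?_ h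
  rw [Pool.Agent.H65.Shore.ones]
  apply Pool.Agent.H65.Shore.packN_congr
  intro i _
  simp

/-- check of all the values at the points of the grid -/
def gridP (Q : List (List ℤ)) (K0 : ℕ) (ks : ℤ) (st zs g m W : ℕ) (Bs : List ℕ) (o : ℕ)
    (lo hi : ℤ) : Bool :=
  seqN (Nat.pow 2 (Nat.sub W 1)) fun h =>
  match Nat.ble (Nat.succ (Nat.add K0 lo.natAbs)) h with
  | false => false
  | true =>
  match Nat.ble (Nat.succ (Nat.add K0 hi.natAbs)) h with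
  | false => false
  | true =>
  seqN (Nat.mul h o) fun HO =>
  seqI (Int.mul (Int.sub lo (Int.ofNat h)) (Int.ofNat o)) fun LOo =>
  seqI (Int.mul (Int.add hi (Int.ofNat h)) (Int.ofNat o)) fun HIo =>
  seqLL Q fun Q' => seqI ks fun ks' => seqI (Int.ofNat st) fun st' =>
  seqI (Int.ofNat g) fun g' => seqI (Int.ofNat zs) fun zs' =>
  chkP Q' Bs HO LOo HIo ks' st' g' (Nat.succ m) zs'

theorem gridP_sound {Q : List (List ℤ)} {n H G : ℕ} {ks : ℤ} {st zs g m W : ℕ} {Bs : List ℕ}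
    (hW : 0 < W) (hB : BT W (n + 1) 0 Bs) (hH0 : 0 ≤ ks + (H:ℤ))
    (hH1 : 0 ≤ (H:ℤ) - (ks + ((n * st : ℕ) : ℤ))) (hG1 : zs + m * g ≤ G) {lo hi : ℤ}
    (h : gridP Q (bnd2 H G Q) ks st zs g m W Bs (Pool.Agent.H65.Shore.ones W (n + 1)) lo hi
      = true) :
    ∀ k < n + 1, ∀ l < m + 1, (lo:ℝ) ≤ ev2 Q (ks + k * st) (((zs:ℕ):ℤ) + l * g) ∧
      ev2 Q (ks + k * st) (((zs:ℕ):ℤ) + l * g) ≤ (hi:ℝ) := by
  unfold gridP at h
  rw [seqN_eq] at h
  have e3 : Int.ofNat (Nat.pow 2 (Nat.sub W 1)) = (2:ℤ) ^ (W - 1) := by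
    show ((2 ^ (W - 1) : ℕ) : ℤ) = _
    push_cast
    rfl
  have e4 : Nat.pow 2 (Nat.sub W 1) = 2 ^ (W - 1) := rfl
  rw [e3, e4] at h
  cases g1 : Nat.ble (Nat.succ (Nat.add (bnd2 H G Q) lo.natAbs)) (2 ^ (W - 1)) with
  | false => rw [g1] at h; exact absurd h (by simp)
  | true =>
  rw [g1] at h
  cases g2 : Nat.ble (Nat.succ (Nat.add (bnd2 H G Q) hi.natAbs)) (2 ^ (W - 1)) with
  | false => rw [g2] at h; exact absurd h (by simp)
  | true =>
  rw [g2] at h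
  simp only [seqN_eq, seqI_eq, seqLL_eq] at h
  have g1' : bnd2 H G Q + lo.natAbs < 2 ^ (W - 1) := Nat.le_of_ble_eq_true g1
  have g2' : bnd2 H G Q + hi.natAbs < 2 ^ (W - 1) := Nat.le_of_ble_eq_true g2
  refine chkP_sound hW hB g1' g2' ?_ (m + 1) ?_ h
  · intro k hk
    have hk' : (k:ℤ) ≤ n := by exact_mod_cast Nat.lt_succ_iff.mp hk
    have h6 : (k:ℤ) * st ≤ n * st := mul_le_mul_of_nonneg_right hk' (Int.natCast_nonneg st)
    have h7 : 0 ≤ (k:ℤ) * st := by positivity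
    push_cast at hH1
    rw [abs_le]
    constructor <;> linarith
  · intro l hl
    have hl' : (l:ℤ) ≤ m := by exact_mod_cast Nat.lt_succ_iff.mp hl
    have h6 : (l:ℤ) * g ≤ m * g := mul_le_mul_of_nonneg_right hl' (Int.natCast_nonneg g)
    have h8 : (zs:ℤ) + m * g ≤ G := by exact_mod_cast hG1
    have h9 : (0:ℤ) ≤ ((zs:ℕ):ℤ) + l * g := by positivity
    rw [abs_of_nonneg h9]
    linarith

/-- range check of one derivative, unit `2 ^ (-30)` -/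
def rngP (Q QX QW : List (List ℤ)) (epsN : ℕ) (b : Bx) (E : ℕ) (LO HI : ℤ) (W : ℕ)
    (Bs : List ℕ) (o : ℕ) : Bool :=
  seqN b.H fun H => seqN b.G fun G =>
  seqN (bnd2 H G Q) fun K0 =>
  seqN (bnd2 H G QX) fun KX =>
  seqN (bnd2 H G QW) fun KW =>
  seqN (Nat.mul (Nat.pow b.s 7) (Nat.pow b.q 4)) fun P =>
  seqN (Nat.add (Nat.add (Nat.add (Nat.div (Nat.mul KX (Nat.mul b.st b.st))
      (Nat.mul 8 (Nat.pow b.s 2))) (Nat.div (Nat.mul KW (Nat.mul b.g b.g))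
      (Nat.mul 8 (Nat.pow b.q 2)))) 2) (Nat.mul (Nat.mul E epsN) P)) fun cr =>
  seqI (Int.add (Int.mul LO ((Nat.mul 1073741824 P : ℕ) : ℤ)) (cr : ℤ)) fun lo =>
  seqI (Int.sub (Int.mul HI ((Nat.mul 1073741824 P : ℕ) : ℤ)) (cr : ℤ)) fun hi =>
  gridP Q K0 b.ks b.st b.zs b.g b.m W Bs o lo hi

theorem rngP_sound {D : Dat} {L : List (List ℤ)} {epsN : ℕ}
    (hA : Apx D L 60 ((epsN:ℝ) / 2 ^ 60)) (h1 : L.getD 1 [] = []) {b : Bx} (hb : b.ok = true)
    {i j E : ℕ} (hE : ∑ n ∈ Finset.range 5, ((n + j).descFactorial j *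
      ∑ m ∈ Finset.range 8, (m + i).descFactorial i * 4 ^ (7 - m)) ≤ E * 4 ^ 7)
    {Q QX QW : List (List ℤ)} (hQ : Q = genD L b.s b.q i j)
    (hQX : QX = genD L b.s b.q (i + 2) j) (hQW : QW = genD L b.s b.q i (j + 2))
    {LO HI : ℤ} {W : ℕ} (hW : 0 < W) {Bs : List ℕ} (hB : BT W (b.n + 1) 0 Bs)
    (h : rngP Q QX QW epsN b E LO HI W Bs (Pool.Agent.H65.Shore.ones W (b.n + 1)) = true) :
    ∀ x ∈ Icc ((b.ks:ℝ) / b.s) ((b.ks + b.n * b.st) / b.s),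
      ∀ w ∈ Icc ((b.zs:ℝ) / b.q) ((b.zs + b.m * b.g) / b.q),
      (LO:ℝ) / 2 ^ 30 ≤ D.bd i j x w ∧ D.bd i j x w ≤ (HI:ℝ) / 2 ^ 30 := by
  obtain ⟨s, q, ks, st, n, zs, g, m, H, G⟩ := b
  subst hQ hQX hQW
  unfold Bx.ok at hb
  simp only [Bool.and_eq_true] at hb
  obtain ⟨hs0, hq0, hn, hm, hst, hg, hH0, hH1, hG1, hs4, hq1⟩ := hb
  have hs0 : 1 ≤ s := Nat.le_of_ble_eq_true hs0
  have hq0 : 1 ≤ q := Nat.le_of_ble_eq_true hq0
  have hn : 1 ≤ n := Nat.le_of_ble_eq_true hn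
  have hm : 1 ≤ m := Nat.le_of_ble_eq_true hm
  have hst : 1 ≤ st := Nat.le_of_ble_eq_true hst
  have hg : 1 ≤ g := Nat.le_of_ble_eq_true hg
  have hH0 : 0 ≤ ks + (H:ℤ) := nn_sound hH0
  have hH1 : 0 ≤ (H:ℤ) - (ks + ((n * st : ℕ) : ℤ)) := nn_sound hH1
  have hG1 : zs + m * g ≤ G := Nat.le_of_ble_eq_true hG1
  have hs4 : 4 * H ≤ s := Nat.le_of_ble_eq_true hs4
  have hq1 : G ≤ q := Nat.le_of_ble_eq_true hq1
  unfold rngP at h
  simp only [seqN_eq, seqI_eq] at h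
  have hq := apx_q D hA.l5 hA.l8 h1 (C := 60)
  have hval := gridP_sound hW hB hH0 hH1 hG1 h
  have hsup := sup_chk hq (i := i) (j := j) (s := s) (q := q) hs0 hq0 hn hm hst hg hval (H := H)
    (G := G) (by omega) (by push_cast at hH1; linarith) (by omega) (by exact_mod_cast hG1)
    le_rfl le_rfl
  intro x hx w hw
  have hk := hsup x hx w (by simpa using hw)
  simp only at hx hw
  clear hsup hval h
  have h2s : (0:ℝ) < s := by exact_mod_cast hs0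
  have h2q : (0:ℝ) < q := by exact_mod_cast hq0
  have hs4' : (4:ℝ) * H ≤ s := by exact_mod_cast hs4
  have hq1' : (G:ℝ) ≤ q := by exact_mod_cast hq1
  have hH0' : (0:ℝ) ≤ ks + H := by exact_mod_cast hH0
  have hH1' : (0:ℝ) ≤ H - (ks + n * st) := by exact_mod_cast hH1
  have hG1' : (zs:ℝ) + m * g ≤ G := by exact_mod_cast hG1
  have hx4 : |x| ≤ 1 / 4 := by
    have a1 := (div_le_iff₀ h2s).mp hx.1
    have a2 := (le_div_iff₀ h2s).mp hx.2
    rw [abs_le]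
    constructor
    · have : -(1 / 4) * (s:ℝ) ≤ x * s := by linarith
      exact le_of_mul_le_mul_right this h2s
    · have : x * s ≤ 1 / 4 * (s:ℝ) := by linarith
      exact le_of_mul_le_mul_right this h2s
  have hw1 : |w| ≤ 1 := by
    have a1 := (div_le_iff₀ h2q).mp hw.1
    have a2 := (le_div_iff₀ h2q).mp hw.2
    have a3 : (0:ℝ) ≤ zs := Nat.cast_nonneg _
    rw [abs_le]
    constructor
    · have : -1 * (q:ℝ) ≤ w * q := by linarith
      exact le_of_mul_le_mul_right this h2q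
    · have : w * q ≤ 1 * (q:ℝ) := by linarith
      exact le_of_mul_le_mul_right this h2q
  have hcl := bd_close hA h1 i j hE hx4 hw1
  generalize bnd2 H G (genD L s q (i + 2) j) = KX at hk
  generalize bnd2 H G (genD L s q i (j + 2)) = KW at hk
  -- the correction
  have c1 := div_ceil (KX * (st * st)) (8 * s ^ 2) (by positivity)
  have c2 := div_ceil (KW * (g * g)) (8 * q ^ 2) (by positivity)
  have eN : Nat.add (Nat.add (Nat.add (Nat.div (Nat.mul KX (Nat.mul st st))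
      (Nat.mul 8 (Nat.pow s 2))) (Nat.div (Nat.mul KW (Nat.mul g g))
      (Nat.mul 8 (Nat.pow q 2)))) 2) (Nat.mul (Nat.mul E epsN) (Nat.mul (Nat.pow s 7)
      (Nat.pow q 4))) = KX * (st * st) / (8 * s ^ 2) + KW * (g * g) / (8 * q ^ 2) + 2 +
        E * epsN * (s ^ 7 * q ^ 4) := rfl
  have eP : Nat.mul 1073741824 (Nat.mul (Nat.pow s 7) (Nat.pow q 4)) =
    1073741824 * (s ^ 7 * q ^ 4) := rfl
  rw [eN, eP] at hk
  set cr : ℕ := KX * (st * st) / (8 * s ^ 2) + KW * (g * g) / (8 * q ^ 2) + 2 +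
        E * epsN * (s ^ 7 * q ^ 4) with hcr
  have eLo : Int.add (Int.mul LO ((1073741824 * (s ^ 7 * q ^ 4) : ℕ) : ℤ)) (cr : ℤ) =
    LO * ((1073741824 * (s ^ 7 * q ^ 4) : ℕ) : ℤ) + (cr : ℤ) := rfl
  have eHi : Int.sub (Int.mul HI ((1073741824 * (s ^ 7 * q ^ 4) : ℕ) : ℤ)) (cr : ℤ) =
    HI * ((1073741824 * (s ^ 7 * q ^ 4) : ℕ) : ℤ) - (cr : ℤ) := rfl
  rw [eLo, eHi] at hk
  have hcrR : (KX * st ^ 2 / s ^ 2 + KW * g ^ 2 / q ^ 2) / 8 +
      E * epsN * (s ^ 7 * q ^ 4) ≤ (cr:ℝ) := by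
    rw [hcr]
    push_cast at c1 c2 ⊢
    have e1 : (KX:ℝ) * (st * st) / (8 * s ^ 2) = KX * st ^ 2 / s ^ 2 / 8 := by
      field_simp
    have e2 : (KW:ℝ) * (g * g) / (8 * q ^ 2) = KW * g ^ 2 / q ^ 2 / 8 := by
      field_simp
    rw [e1] at c1
    rw [e2] at c2
    linarith
  obtain ⟨k1, k2⟩ := hk
  obtain ⟨l1, l2⟩ := abs_le.mp hcl
  push_cast at k1 k2
  have hP : (0:ℝ) < (s:ℝ) ^ 7 * q ^ 4 := by positivity
  generalize (s:ℝ) ^ 7 * q ^ 4 = P at *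
  generalize (cr:ℝ) = c at *
  generalize (KX * (st:ℝ) ^ 2 / s ^ 2 + KW * g ^ 2 / q ^ 2) / 8 = d at *
  have hE' : (E:ℝ) * (epsN / 2 ^ 60) = E * epsN * P / (2 ^ 60 * P) := by
    field_simp
  rw [hE'] at l1 l2
  have hS : (0:ℝ) < 2 ^ 60 * P := by positivity
  have e60 : (2:ℝ) ^ 60 = 1073741824 * 2 ^ 30 := by norm_num
  constructor
  · have e3 : (LO:ℝ) / 2 ^ 30 = (LO * (1073741824 * P) / (2 ^ 60 * P)) := by
      rw [e60]
      field_simp
    have e4 : (LO:ℝ) * (1073741824 * P) / (2 ^ 60 * P) + E * epsN * P / (2 ^ 60 * P) ≤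
        (LO * (1073741824 * P) + c - d) / (2 ^ 60 * P) := by
      rw [← add_div]
      apply div_le_div_of_nonneg_right _ hS.le
      linarith
    rw [e3]
    linarith
  · have e3 : (HI:ℝ) / 2 ^ 30 = (HI * (1073741824 * P) / (2 ^ 60 * P)) := by
      rw [e60]
      field_simp
    have e4 : (HI * (1073741824 * P) - c + d) / (2 ^ 60 * P) ≤
        (HI:ℝ) * (1073741824 * P) / (2 ^ 60 * P) - E * epsN * P / (2 ^ 60 * P) := by
      rw [← sub_div]
      apply div_le_div_of_nonneg_right _ hS.le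
      linarith
    rw [e3]
    linarith

end Pool.Agent.H44.ShoreN
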