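import Mathlib
import Pool.Agent.H44.Shore.Reg2
import Pool.Agent.H44.ShoreN.Reg

/-!
Shoreline search: the kernel check of a region of radii and its soundness.
-/

open Set Polynomial

namespace Pool.Agent.H44.ShoreN

open Pool.Agent.H65.Shore (Dq apx_q RegOk Reg)
open Pool.Agent.H44.Shore Pool.Agent.H44.Shore.MBC

/-- scaled derivatives of the certificate -/
structure GM where
  g10 : List (List ℤ)
  g20 : List (List ℤ)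
  g30 : List (List ℤ)
  g40 : List (List ℤ)
  g50 : List (List ℤ)
  g01 : List (List ℤ)
  g11 : List (List ℤ)
  g21 : List (List ℤ)
  g31 : List (List ℤ)
  g41 : List (List ℤ)
  g02 : List (List ℤ)
  g12 : List (List ℤ)
  g22 : List (List ℤ)
  g32 : List (List ℤ)
  g03 : List (List ℤ)
  g13 : List (List ℤ)
  g23 : List (List ℤ)
  g04 : List (List ℤ)
  g14 : List (List ℤ)
  g05 : List (List ℤ)

/-- validity of the derivatives -/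
structure GOk (L : List (List ℤ)) (s q : ℕ) (G : GM) : Prop where
  e10 : G.g10 = genD L s q 1 0
  e20 : G.g20 = genD L s q 2 0
  e30 : G.g30 = genD L s q 3 0
  e40 : G.g40 = genD L s q 4 0
  e50 : G.g50 = genD L s q 5 0
  e01 : G.g01 = genD L s q 0 1
  e11 : G.g11 = genD L s q 1 1
  e21 : G.g21 = genD L s q 2 1
  e31 : G.g31 = genD L s q 3 1
  e41 : G.g41 = genD L s q 4 1
  e02 : G.g02 = genD L s q 0 2
  e12 : G.g12 = genD L s q 1 2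
  e22 : G.g22 = genD L s q 2 2
  e32 : G.g32 = genD L s q 3 2
  e03 : G.g03 = genD L s q 0 3
  e13 : G.g13 = genD L s q 1 3
  e23 : G.g23 = genD L s q 2 3
  e04 : G.g04 = genD L s q 0 4
  e14 : G.g14 = genD L s q 1 4
  e05 : G.g05 = genD L s q 0 5

/-- constants of the certificate -/
structure RC where
  L : List (List ℤ)
  epsN : ℕ
  rbn : ℕ
  nL : ℕ
  N : ℕ
  s : ℕ
  q : ℕ
  W : ℕ
  G : GM

structure RCOk (D : Dat) (K : RC) : Prop where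
  apx : Apx D K.L 60 ((K.epsN:ℝ) / 2 ^ 60)
  l1 : K.L.getD 1 [] = []
  hrbn : 0 < K.rbn
  hrB : D.rB = (K.rbn:ℝ) / 2 ^ 20
  hN : 0 < K.N
  hnL : 0 < K.nL
  hxL : D.xL = (K.nL:ℝ) / K.N
  hW : 0 < K.W
  hG : GOk K.L K.s K.q K.G

/-- upper bound of `1 / rB ^ 2` -/
def iB (rbn : ℕ) : ℕ := Nat.add (Nat.div (Nat.pow 2 70) (Nat.mul rbn rbn)) 1

theorem iB_sound {rbn : ℕ} (h : 0 < rbn) : UB (1 / ((rbn:ℝ) / 2 ^ 20) ^ 2) (iB rbn) := by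
  have hr : (0:ℝ) < rbn := by exact_mod_cast h
  refine ⟨by positivity, ?_⟩
  have h1 := div_ceil (2 ^ 70) (rbn * rbn) (by positivity)
  have e : ((iB rbn : ℕ) : ℝ) = ((2 ^ 70 / (rbn * rbn) : ℕ) : ℝ) + 1 := by
    show ((2 ^ 70 / (rbn * rbn) + 1 : ℕ) : ℝ) = _
    push_cast
    ring
  rw [e]
  refine le_trans (le_of_eq ?_) h1
  push_cast
  field_simp
  norm_num

theorem V_sound : UB (51 / 50) 1095216661 := ⟨by norm_num, by norm_num⟩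

theorem r_sound (r : ℕ) : UB ((r:ℝ) / 2 ^ 20) (Nat.mul 1024 r) := by
  refine ⟨by positivity, ?_⟩
  have e : ((Nat.mul 1024 r : ℕ) : ℝ) = 1024 * r := by
    show ((1024 * r : ℕ) : ℝ) = _
    push_cast
    ring
  rw [e]
  have : (r:ℝ) / 2 ^ 20 * 2 ^ 30 = 1024 * r := by
    field_simp
    norm_num
  rw [this]

/-- the grid covers `[-xL, xb]` -/
def coverX (K : RC) (b : Bx) (xb : ℕ) : Bool :=
  nn (Int.sub (Int.neg ((Nat.mul K.nL b.s : ℕ) : ℤ)) (Int.mul b.ks (K.N : ℤ))) &&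
  nn (Int.sub (Int.mul (Int.add b.ks ((Nat.mul b.n b.st : ℕ) : ℤ)) ((Nat.pow 2 20 : ℕ) : ℤ))
    ((Nat.mul xb b.s : ℕ) : ℤ))

theorem bx_pos {b : Bx} (h : b.ok = true) : 0 < b.s ∧ 0 < b.q := by
  unfold Bx.ok at h
  simp only [Bool.and_eq_true] at h
  exact ⟨Nat.le_of_ble_eq_true h.1, Nat.le_of_ble_eq_true h.2.1⟩

theorem coverX_sound {D : Dat} {K : RC} (hK : RCOk D K) {b : Bx} {xb : ℕ} (hb : b.ok = true)
    (h : coverX K b xb = true) :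
    (b.ks:ℝ) / b.s ≤ -D.xL ∧ (xb:ℝ) / 2 ^ 20 ≤ (b.ks + b.n * b.st) / b.s := by
  unfold coverX at h
  rw [Bool.and_eq_true] at h
  have h1 : 0 ≤ -((K.nL * b.s : ℕ) : ℤ) - b.ks * (K.N : ℤ) := nn_sound h.1
  have h2 : 0 ≤ (b.ks + ((b.n * b.st : ℕ) : ℤ)) * ((2 ^ 20 : ℕ) : ℤ) -
    ((xb * b.s : ℕ) : ℤ) := nn_sound h.2
  have hN : (0:ℝ) < K.N := by exact_mod_cast hK.hN
  have hs : (0:ℝ) < b.s := by exact_mod_cast (bx_pos hb).1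
  constructor
  · rw [hK.hxL, ← neg_div, div_le_div_iff₀ hs hN]
    have : (0:ℝ) ≤ -((K.nL:ℝ) * b.s) - b.ks * K.N := by exact_mod_cast h1
    linarith
  · rw [div_le_div_iff₀ (by positivity) hs]
    have : (0:ℝ) ≤ (b.ks + (b.n:ℝ) * b.st) * 2 ^ 20 - xb * b.s := by exact_mod_cast h2
    linarith

/-- the grid covers the values of `W` for radii between `r1` and `rb` -/
def coverW (rbn : ℕ) (b : Bx) (r1 rb : ℕ) : Bool :=
  (Nat.beq b.zs 0 || Nat.ble (Nat.add (Nat.mul b.zs (Nat.mul rbn rbn)) (Nat.mul b.q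
    (Nat.mul rb rb))) (Nat.mul b.q (Nat.mul rbn rbn))) &&
  Nat.ble (Nat.mul b.q (Nat.mul rbn rbn)) (Nat.add (Nat.mul (Nat.add b.zs
    (Nat.mul b.m b.g)) (Nat.mul rbn rbn)) (Nat.mul b.q (Nat.mul r1 r1)))

theorem coverW_sound {rbn : ℕ} (hr : 0 < rbn) {b : Bx} (hb : b.ok = true) {r1 rb : ℕ}
    (h : coverW rbn b r1 rb = true) :
    ((b.zs:ℝ) / b.q ≤ 0 ∨ (b.zs:ℝ) / b.q ≤
      1 - ((rb:ℝ) / 2 ^ 20) ^ 2 / ((rbn:ℝ) / 2 ^ 20) ^ 2) ∧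
    1 - ((r1:ℝ) / 2 ^ 20) ^ 2 / ((rbn:ℝ) / 2 ^ 20) ^ 2 ≤ (b.zs + b.m * b.g) / b.q := by
  unfold coverW at h
  rw [Bool.and_eq_true, Bool.or_eq_true] at h
  obtain ⟨h1, h2⟩ := h
  have h2 : b.q * (rbn * rbn) ≤ (b.zs + b.m * b.g) * (rbn * rbn) + b.q * (r1 * r1) :=
    Nat.le_of_ble_eq_true h2
  have hrr : (0:ℝ) < rbn := by exact_mod_cast hr
  have hq : (0:ℝ) < b.q := by exact_mod_cast (bx_pos hb).2
  have e : ∀ r : ℝ, 1 - (r / 2 ^ 20) ^ 2 / ((rbn:ℝ) / 2 ^ 20) ^ 2 =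
      ((rbn:ℝ) * rbn - r * r) / (rbn * rbn) := by
    intro r
    field_simp
  constructor
  · rcases h1 with h1 | h1
    · left
      have : b.zs = 0 := Nat.eq_of_beq_eq_true h1
      rw [this]
      simp
    · right
      have h1 : b.zs * (rbn * rbn) + b.q * (rb * rb) ≤ b.q * (rbn * rbn) :=
        Nat.le_of_ble_eq_true h1
      have h3 : (b.zs:ℝ) * (rbn * rbn) + b.q * (rb * rb) ≤ b.q * (rbn * rbn) := by
        exact_mod_cast h1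
      rw [e, div_le_div_iff₀ hq (by positivity)]
      linarith
  · have h3 : (b.q:ℝ) * (rbn * rbn) ≤ (b.zs + b.m * b.g) * (rbn * rbn) +
        b.q * (r1 * r1) := by exact_mod_cast h2
    rw [e, div_le_div_iff₀ (by positivity) hq]
    linarith

/-- the scale of the grid is that of the certificate -/
def sq (K : RC) (b : Bx) : Bool := Nat.beq b.s K.s && Nat.beq b.q K.q

def nineP (K : RC) (b : Bx) (M : M9) (Bs : List ℕ) (o : ℕ) : Bool :=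
  rngP K.G.g10 K.G.g30 K.G.g12 K.epsN b 9 (Int.neg (M.m10 : ℤ)) (M.m10 : ℤ) K.W Bs o &&
  (rngP K.G.g20 K.G.g40 K.G.g22 K.epsN b 24 (Int.neg (M.m20 : ℤ)) (M.m20 : ℤ) K.W Bs o &&
  (rngP K.G.g30 K.G.g50 K.G.g32 K.epsN b 95 (Int.neg (M.m30 : ℤ)) (M.m30 : ℤ) K.W Bs o &&
  (rngP K.G.g01 K.G.g21 K.G.g03 K.epsN b 20 (Int.neg (M.m01 : ℤ)) (M.m01 : ℤ) K.W Bs o &&
  (rngP K.G.g11 K.G.g31 K.G.g13 K.epsN b 27 (Int.neg (M.m11 : ℤ)) (M.m11 : ℤ) K.W Bs o &&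
  (rngP K.G.g21 K.G.g41 K.G.g23 K.epsN b 72 (Int.neg (M.m21 : ℤ)) (M.m21 : ℤ) K.W Bs o &&
  (rngP K.G.g02 K.G.g22 K.G.g04 K.epsN b 94 (Int.neg (M.m02 : ℤ)) (M.m02 : ℤ) K.W Bs o &&
  (rngP K.G.g12 K.G.g32 K.G.g14 K.epsN b 125 (Int.neg (M.m12 : ℤ)) (M.m12 : ℤ) K.W Bs o &&
  (rngP K.G.g03 K.G.g23 K.G.g05 K.epsN b 560 (Int.neg (M.m03 : ℤ)) (M.m03 : ℤ) K.W Bs o))))))))

def nineC (K : RC) (b : Bx) (M : M9) : Bool :=
  sq K b && withTab K.W (b.n + 1) fun Bs o => nineP K b M Bs o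

theorem rng_abs {D : Dat} {K : RC} (hK : RCOk D K) {b : Bx} (hb : b.ok = true) {i j E : ℕ}
    (hE : ∑ n ∈ Finset.range 5, ((n + j).descFactorial j *
      ∑ m ∈ Finset.range 8, (m + i).descFactorial i * 4 ^ (7 - m)) ≤ E * 4 ^ 7) {M : ℕ}
    {Q QX QW : List (List ℤ)} (hQ : Q = genD K.L b.s b.q i j)
    (hQX : QX = genD K.L b.s b.q (i + 2) j) (hQW : QW = genD K.L b.s b.q i (j + 2)) {Bs : List ℕ}
    (hB : BT K.W (b.n + 1) 0 Bs)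
    (h : rngP Q QX QW K.epsN b E (Int.neg (M : ℤ)) (M : ℤ) K.W Bs
      (Pool.Agent.H65.Shore.ones K.W (b.n + 1)) = true) {xa xb wa wb : ℝ}
    (hxa : (b.ks:ℝ) / b.s ≤ xa) (hxb : xb ≤ (b.ks + b.n * b.st) / b.s)
    (hwa : (b.zs:ℝ) / b.q ≤ wa) (hwb : wb ≤ (b.zs + b.m * b.g) / b.q) :
    ∀ x ∈ Icc xa xb, ∀ w ∈ Icc wa wb, |D.bd i j x w| ≤ (M:ℝ) / 2 ^ 30 := by
  intro x hx w hw
  have h1 := rngP_sound hK.apx hK.l1 hb hE hQ hQX hQW hK.hW hB h x ⟨hxa.trans hx.1, hx.2.trans hxb⟩ w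
    ⟨hwa.trans hw.1, hw.2.trans hwb⟩
  have e : ((Int.neg (M : ℤ) : ℤ) : ℝ) = -(M:ℝ) := by
    show ((-(M : ℤ) : ℤ) : ℝ) = _
    push_cast
    ring
  rw [e, neg_div] at h1
  rw [abs_le]
  refine ⟨h1.1, ?_⟩
  simpa using h1.2

theorem nineC_sound {D : Dat} {K : RC} (hK : RCOk D K) {b : Bx} (hb : b.ok = true) {M : M9}
    (h : nineC K b M = true) {xa xb wa wb : ℝ}
    (hxa : (b.ks:ℝ) / b.s ≤ xa) (hxb : xb ≤ (b.ks + b.n * b.st) / b.s)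
    (hwa : (b.zs:ℝ) / b.q ≤ wa) (hwb : wb ≤ (b.zs + b.m * b.g) / b.q) :
    MB D xa xb wa wb ((M.m10:ℝ) / 2 ^ 30) ((M.m20:ℝ) / 2 ^ 30) ((M.m30:ℝ) / 2 ^ 30)
      ((M.m01:ℝ) / 2 ^ 30) ((M.m11:ℝ) / 2 ^ 30) ((M.m21:ℝ) / 2 ^ 30) ((M.m02:ℝ) / 2 ^ 30)
      ((M.m12:ℝ) / 2 ^ 30) ((M.m03:ℝ) / 2 ^ 30) := by
  unfold nineC sq at h
  rw [Bool.and_eq_true, Bool.and_eq_true] at h
  obtain ⟨⟨hs, hq⟩, h⟩ := h
  have hs : b.s = K.s := Nat.eq_of_beq_eq_true hs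
  have hq : b.q = K.q := Nat.eq_of_beq_eq_true hq
  have hG := hK.hG
  rw [← hs, ← hq] at hG
  obtain ⟨Bs, hB, h⟩ := withTab_sound hK.hW h
  unfold nineP at h
  simp only [Bool.and_eq_true] at h
  obtain ⟨h1, h2, h3, h4, h5, h6, h7, h8, h9⟩ := h
  exact ⟨rng_abs hK hb (by decide +kernel) hG.e10 hG.e30 hG.e12 hB h1 hxa hxb hwa hwb,
    rng_abs hK hb (by decide +kernel) hG.e20 hG.e40 hG.e22 hB h2 hxa hxb hwa hwb,
    rng_abs hK hb (by decide +kernel) hG.e30 hG.e50 hG.e32 hB h3 hxa hxb hwa hwb,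
    rng_abs hK hb (by decide +kernel) hG.e01 hG.e21 hG.e03 hB h4 hxa hxb hwa hwb,
    rng_abs hK hb (by decide +kernel) hG.e11 hG.e31 hG.e13 hB h5 hxa hxb hwa hwb,
    rng_abs hK hb (by decide +kernel) hG.e21 hG.e41 hG.e23 hB h6 hxa hxb hwa hwb,
    rng_abs hK hb (by decide +kernel) hG.e02 hG.e22 hG.e04 hB h7 hxa hxb hwa hwb,
    rng_abs hK hb (by decide +kernel) hG.e12 hG.e32 hG.e14 hB h8 hxa hxb hwa hwb,
    rng_abs hK hb (by decide +kernel) hG.e03 hG.e23 hG.e05 hB h9 hxa hxb hwa hwb⟩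

/-- upper bound of `2 (V + rB) / rB` -/
def cB (rbn : ℕ) : ℕ :=
  Nat.add (Nat.div (Nat.mul 102 (Nat.pow 2 50)) (Nat.mul 50 rbn)) 2147483649

theorem cB_sound {rbn : ℕ} (h : 0 < rbn) :
    UB (2 * (51 / 50 + (rbn:ℝ) / 2 ^ 20) / ((rbn:ℝ) / 2 ^ 20)) (cB rbn) := by
  have hr : (0:ℝ) < rbn := by exact_mod_cast h
  refine ⟨by positivity, ?_⟩
  have h1 := div_ceil (102 * 2 ^ 50) (50 * rbn) (by positivity)
  have e : ((cB rbn : ℕ) : ℝ) = ((102 * 2 ^ 50 / (50 * rbn) : ℕ) : ℝ) + 1 + 2147483648 := by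
    show ((102 * 2 ^ 50 / (50 * rbn) + 2147483649 : ℕ) : ℝ) = _
    push_cast
    ring
  rw [e]
  have e2 : 2 * (51 / 50 + (rbn:ℝ) / 2 ^ 20) / ((rbn:ℝ) / 2 ^ 20) * 2 ^ 30 =
      ((102 * 2 ^ 50 : ℕ) : ℝ) / ((50 * rbn : ℕ) : ℝ) + 2147483648 := by
    push_cast
    field_simp
    ring
  rw [e2]
  linarith

theorem c30 : ((1073741824 : ℕ) : ℝ) = 2 ^ 30 := by norm_num

theorem cpow (k : ℕ) : ((Nat.pow 2 k : ℕ) : ℝ) = 2 ^ k := by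
  show ((2 ^ k : ℕ) : ℝ) = _
  push_cast
  ring

theorem cast_nn {n : ℤ} (h : 0 ≤ n) : (0:ℝ) ≤ (n:ℝ) := by exact_mod_cast h

theorem frac_le {a b A : ℝ} (hb : 0 < b) (h : a * b ≤ A) : a / 2 ^ 30 ≤ A / (2 ^ 30 * b) := by
  rw [div_le_div_iff₀ (by positivity) (by positivity)]
  have h1 := mul_le_mul_of_nonneg_right h (by positivity : (0:ℝ) ≤ 2 ^ 30)
  calc a * (2 ^ 30 * b) = a * b * 2 ^ 30 := by ring
    _ ≤ A * 2 ^ 30 := h1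

/-- `rb / 2 ^ 20 < xL - ep / 2 ^ 40` -/
def slF (nL N ep rb : ℕ) : Bool :=
  Nat.ble (Nat.add (Nat.add (Nat.mul rb (Nat.mul N (Nat.pow 2 20))) (Nat.mul ep N)) 1)
    (Nat.mul nL (Nat.pow 2 40))

theorem slF_aux {nL N ep rb a b : ℕ} (h : rb * (N * a) + ep * N + 1 ≤ nL * b) :
    (rb:ℝ) * (N * a) + ep * N + 1 ≤ nL * b := by exact_mod_cast h

theorem slF_sound {nL N ep rb : ℕ} (hN : 0 < N) (h : slF nL N ep rb = true) :
    (rb:ℝ) / 2 ^ 20 < (nL:ℝ) / N - (ep:ℝ) / 2 ^ 40 := by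
  have hN' : (0:ℝ) < N := by exact_mod_cast hN
  have h2 := slF_aux (a := Nat.pow 2 20) (b := Nat.pow 2 40) (Nat.le_of_ble_eq_true h)
  rw [cpow, cpow] at h2
  have e40 : (2:ℝ) ^ 40 = 2 ^ 20 * 2 ^ 20 := by norm_num
  have ha : (0:ℝ) < 2 ^ 20 := by positivity
  rw [e40] at h2 ⊢
  generalize (2:ℝ) ^ 20 = a at ha h2
  have e : (nL:ℝ) / N - (ep:ℝ) / (a * a) = (nL * (a * a) - ep * N) / (N * (a * a)) := by
    field_simp
  rw [e, div_lt_div_iff₀ ha (by positivity)]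
  have h3 := mul_lt_mul_of_pos_right (by linarith : (rb:ℝ) * (N * a) <
    nL * (a * a) - ep * N) ha
  calc (rb:ℝ) * (N * (a * a)) = rb * (N * a) * a := by ring
    _ < _ := h3

/-- upper end of the range of the abscissa -/
def slX (nL N ep s : ℕ) (y : ℤ) : Bool :=
  nn (Int.sub (Int.mul (Int.mul y (N : ℤ)) ((Nat.pow 2 40 : ℕ) : ℤ))
    (Int.mul (Int.sub ((Nat.mul ep N : ℕ) : ℤ) ((Nat.mul nL (Nat.pow 2 40) : ℕ) : ℤ))
      (s : ℤ)))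

theorem slX_aux {nL N ep b d : ℕ} {y : ℤ} (h1 : 0 ≤ y * (N : ℤ) * (b : ℤ) -
    (((ep * N : ℕ) : ℤ) - ((nL * b : ℕ) : ℤ)) * (d : ℤ)) :
    (0:ℝ) ≤ y * N * b - ((ep:ℝ) * N - nL * b) * d := by
  have h2 := cast_nn h1
  push_cast at h2
  exact h2

theorem slX_sound {nL N ep s : ℕ} {y : ℤ} (hN : 0 < N) (hs : 0 < s)
    (h : slX nL N ep s y = true) : -((nL:ℝ) / N) + (ep:ℝ) / 2 ^ 40 ≤ y / s := by
  have hN' : (0:ℝ) < N := by exact_mod_cast hN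
  have h2 := slX_aux (nL := nL) (N := N) (ep := ep) (b := Nat.pow 2 40) (d := s)
    (y := y) (nn_sound h)
  rw [cpow] at h2
  have hb : (0:ℝ) < 2 ^ 40 := by positivity
  have hd : (0:ℝ) < s := by exact_mod_cast hs
  generalize (2:ℝ) ^ 40 = b at hb h2
  generalize (s:ℝ) = d at hd h2
  rw [le_div_iff₀ hd]
  have e : (-((nL:ℝ) / N) + (ep:ℝ) / b) * d = ((ep:ℝ) * N - nL * b) * d / (N * b) := by
    field_simp
    ring
  rw [e, div_le_iff₀ (by positivity)]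
  linarith

def slQ (u v : ℕ) : Bool := Nat.ble (Nat.add u v) 1073741824

theorem slQ_aux {u v a : ℕ} (h : u + v ≤ a) : (u:ℝ) + v ≤ a := by exact_mod_cast h

theorem slQ_sound {u v : ℕ} (h : slQ u v = true) : (u:ℝ) + v ≤ 2 ^ 30 := by
  have h2 := slQ_aux (a := 1073741824) (Nat.le_of_ble_eq_true h)
  rwa [c30] at h2

/-- `RegOk` without the sliver -/
structure RegB (D : Dat) (V : ℝ) (g : Reg) : Prop where
  semi : ∃ Kf : ℝ → ℝ → ℝ, SemiC D (-D.xL) ((g.xb:ℝ) / 2 ^ 20) ((g.ra:ℝ) / 2 ^ 20)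
    ((g.rb:ℝ) / 2 ^ 20) V Kf ∧ Kf 1 0 ≤ g.KR ∧ Kf 0 1 ≤ g.KT
  lip : ∃ Lf : ℝ → ℝ → ℝ, LipC D (-D.xL) ((g.xb:ℝ) / 2 ^ 20) ((g.ra:ℝ) / 2 ^ 20)
    ((g.rb:ℝ) / 2 ^ 20) V Lf ∧ ∀ a e, 0 ≤ a → 0 ≤ e → Lf a e ≤ g.LA * a + g.LE * e
  xb1 : (g.xb:ℝ) / 2 ^ 20 ≤ 21 / 100

/-- the check of a region inside the radius `rB` -/
def regIn (K : RC) (g : Reg) (b : Bx) (M : M9) : Bool :=
  b.ok && (coverX K b g.xb && (coverW K.rbn b g.ra g.rb && (Nat.ble g.rb K.rbn &&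
  (nineC K b M && (Nat.ble (kb10 (iB K.rbn) (Nat.mul 1024 g.rb) 1095216661 M)
    (Nat.mul g.KR 1073741824) &&
  (Nat.ble (kb01 (iB K.rbn) (Nat.mul 1024 g.rb) 1095216661 M) (Nat.mul g.KT 1073741824) &&
  (Nat.ble (lb10 (iB K.rbn) (Nat.mul 1024 g.rb) 1095216661 M) (Nat.mul g.LA 1073741824) &&
  (Nat.ble (lb01 (iB K.rbn) (Nat.mul 1024 g.rb) 1095216661 M) (Nat.mul g.LE 1073741824) &&
  Nat.ble (Nat.mul 100 g.xb) (Nat.mul 21 (Nat.pow 2 20))))))))))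

theorem xb_aux {a b : ℕ} (h : 100 * a ≤ 21 * b) (hb : 0 < (b:ℝ)) : (a:ℝ) / b ≤ 21 / 100 := by
  rw [div_le_div_iff₀ hb (by norm_num)]
  have : (100:ℝ) * a ≤ 21 * b := by exact_mod_cast h
  linarith

theorem ble_cast {a b : ℕ} (h : Nat.ble a b = true) : (a:ℝ) / 2 ^ 20 ≤ (b:ℝ) / 2 ^ 20 := by
  have h1 : a ≤ b := Nat.le_of_ble_eq_true h
  have h2 : (a:ℝ) ≤ b := by exact_mod_cast h1
  exact div_le_div_of_nonneg_right h2 (by positivity)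

/-- **Soundness of the check of a region.** -/
theorem regIn_sound {D : Dat} {K : RC} (hK : RCOk D K) {g : Reg} {b : Bx} {M : M9}
    (h : regIn K g b M = true) : RegB D (51 / 50) g := by
  unfold regIn at h
  simp only [Bool.and_eq_true] at h
  obtain ⟨h1, h2, h3, h4, h5, h6, h7, h8, h9, h10⟩ := h
  have hrbn : (0:ℝ) < K.rbn := by exact_mod_cast hK.hrbn
  have hrB0 : 0 < D.rB := by
    rw [hK.hrB]
    positivity
  obtain ⟨x1, x2⟩ := coverX_sound hK h1 h2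
  obtain ⟨w1, w2⟩ := coverW_sound hK.hrbn h1 h3
  have hrb := ble_cast h4
  rw [← hK.hrB] at hrb w1 w2
  have w1' : (b.zs:ℝ) / b.q ≤ 1 - ((g.rb:ℝ) / 2 ^ 20) ^ 2 / D.rB ^ 2 := by
    rcases w1 with w1 | w1
    · refine w1.trans ?_
      rw [sub_nonneg, div_le_one (by positivity)]
      gcongr
    · exact w1
  have hM := nineC_sound hK h1 h5 (xa := -D.xL) (xb := (g.xb:ℝ) / 2 ^ 20)
    (wa := 1 - ((g.rb:ℝ) / 2 ^ 20) ^ 2 / D.rB ^ 2)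
    (wb := 1 - ((g.ra:ℝ) / 2 ^ 20) ^ 2 / D.rB ^ 2) x1 x2 w1' w2
  have hI := iB_sound hK.hrbn
  rw [← hK.hrB] at hI
  have hr := r_sound g.rb
  refine ⟨⟨_, semiC_in hM hrB0 (by norm_num) (by positivity) hrb le_rfl le_rfl,
    (kb10_sound hI hr V_sound).le h6, (kb01_sound hI hr V_sound).le h7⟩,
    ⟨_, lipC_in hM hrB0 (by norm_num) (by positivity) hrb le_rfl le_rfl, ?_⟩, ?_⟩
  · intro a e ha he
    rw [LB_lin]
    exact add_le_add (mul_le_mul_of_nonneg_right ((lb10_sound hI hr V_sound).le h8) ha)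
      (mul_le_mul_of_nonneg_right ((lb01_sound hI hr V_sound).le h9) he)
  · have := xb_aux (Nat.le_of_ble_eq_true h10) (by rw [cpow]; positivity)
    rwa [cpow] at this

def threeP (K : RC) (b : Bx) (M : M9) (Bs : List ℕ) (o : ℕ) : Bool :=
  rngP K.G.g10 K.G.g30 K.G.g12 K.epsN b 9 (Int.neg (M.m10 : ℤ)) (M.m10 : ℤ) K.W Bs o &&
  (rngP K.G.g20 K.G.g40 K.G.g22 K.epsN b 24 (Int.neg (M.m20 : ℤ)) (M.m20 : ℤ) K.W Bs o &&
  (rngP K.G.g30 K.G.g50 K.G.g32 K.epsN b 95 (Int.neg (M.m30 : ℤ)) (M.m30 : ℤ) K.W Bs o))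

def threeC (K : RC) (b : Bx) (M : M9) : Bool :=
  sq K b && withTab K.W (b.n + 1) fun Bs o => threeP K b M Bs o

/-- the check of a region outside the radius `rB` -/
def regOut (K : RC) (g : Reg) (b : Bx) (M : M9) : Bool :=
  b.ok && (coverX K b g.xb && (Nat.beq b.zs 0 && (Nat.ble K.rbn g.ra && (Nat.ble 1 g.rb &&
  (threeC K b M && (Nat.ble (ko10 (Nat.mul 1024 g.rb) 1095216661 M)
    (Nat.mul g.KR 1073741824) &&
  (Nat.ble (ko01 (Nat.mul 1024 g.rb) 1095216661 M) (Nat.mul g.KT 1073741824) &&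
  (Nat.ble (lo10 (Nat.mul 1024 g.rb) 1095216661 M) (Nat.mul g.LA 1073741824) &&
  (Nat.ble (lo01 (Nat.mul 1024 g.rb) 1095216661 M) (Nat.mul g.LE 1073741824) &&
  Nat.ble (Nat.mul 100 g.xb) (Nat.mul 21 (Nat.pow 2 20)))))))))))

/-- **Soundness of the check of a region.** -/
theorem regOut_sound {D : Dat} {K : RC} (hK : RCOk D K) {g : Reg} {b : Bx} {M : M9}
    (h : regOut K g b M = true) : RegB D (51 / 50) g := by
  unfold regOut at h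
  simp only [Bool.and_eq_true] at h
  obtain ⟨h1, h2, h3, h4, h0, h5, h6, h7, h8, h9, h10⟩ := h
  have hrbn : (0:ℝ) < K.rbn := by exact_mod_cast hK.hrbn
  have hrB0 : 0 < D.rB := by
    rw [hK.hrB]
    positivity
  obtain ⟨x1, x2⟩ := coverX_sound hK h1 h2
  have hra := ble_cast h4
  rw [← hK.hrB] at hra
  have hzs : b.zs = 0 := Nat.eq_of_beq_eq_true h3
  have hrb1 : 1 ≤ g.rb := Nat.le_of_ble_eq_true h0
  have hrb0 : (0:ℝ) < (g.rb:ℝ) / 2 ^ 20 := by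
    have : (1:ℝ) ≤ g.rb := by exact_mod_cast hrb1
    positivity
  have w1 : (b.zs:ℝ) / b.q ≤ 0 := by
    rw [hzs]
    simp
  have w2 : (0:ℝ) ≤ (b.zs + b.m * b.g) / b.q := by positivity
  unfold threeC sq at h5
  rw [Bool.and_eq_true, Bool.and_eq_true] at h5
  obtain ⟨⟨hs, hq⟩, h5⟩ := h5
  have hs : b.s = K.s := Nat.eq_of_beq_eq_true hs
  have hq : b.q = K.q := Nat.eq_of_beq_eq_true hq
  have hG := hK.hG
  rw [← hs, ← hq] at hG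
  obtain ⟨Bs, hB, h5⟩ := withTab_sound hK.hW h5
  unfold threeP at h5
  simp only [Bool.and_eq_true] at h5
  obtain ⟨a1, a2, a3⟩ := h5
  have m1 : ∀ x ∈ Icc (-D.xL) ((g.xb:ℝ) / 2 ^ 20), |D.bd 1 0 x 0| ≤ (M.m10:ℝ) / 2 ^ 30 :=
    fun x hx => rng_abs hK h1 (by decide +kernel) hG.e10 hG.e30 hG.e12 hB a1 x1 x2 w1 w2 x hx 0 ⟨le_rfl, le_rfl⟩
  have m2 : ∀ x ∈ Icc (-D.xL) ((g.xb:ℝ) / 2 ^ 20), |D.bd 2 0 x 0| ≤ (M.m20:ℝ) / 2 ^ 30 :=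
    fun x hx => rng_abs hK h1 (by decide +kernel) hG.e20 hG.e40 hG.e22 hB a2 x1 x2 w1 w2 x hx 0 ⟨le_rfl, le_rfl⟩
  have m3 : ∀ x ∈ Icc (-D.xL) ((g.xb:ℝ) / 2 ^ 20), |D.bd 3 0 x 0| ≤ (M.m30:ℝ) / 2 ^ 30 :=
    fun x hx => rng_abs hK h1 (by decide +kernel) hG.e30 hG.e50 hG.e32 hB a3 x1 x2 w1 w2 x hx 0 ⟨le_rfl, le_rfl⟩
  have hr := r_sound g.rb
  refine ⟨⟨_, semiC_out m1 m2 m3 hrB0 (by norm_num) hra hrb0,
    (ko10_sound hr V_sound).le h6, (ko01_sound hr V_sound).le h7⟩,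
    ⟨_, lipC_out m1 m2 m3 hrB0 (by norm_num) hra hrb0, ?_⟩, ?_⟩
  · intro a e ha he
    rw [LO_lin]
    exact add_le_add (mul_le_mul_of_nonneg_right ((lo10_sound hr V_sound).le h8) ha)
      (mul_le_mul_of_nonneg_right ((lo01_sound hr V_sound).le h9) he)
  · have := xb_aux (Nat.le_of_ble_eq_true h10) (by rw [cpow]; positivity)
    rwa [cpow] at this

end Pool.Agent.H44.ShoreN
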