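import Mathlib
import Pool.Agent.H44.ShoreN.Reg3

/-!
Shoreline search: the kernel check of the sliver next to the shadow line, in pieces.
-/

open Set Polynomial

namespace Pool.Agent.H44.ShoreN

open Pool.Agent.H65.Shore (Dq apx_q RegOk Reg)
open Pool.Agent.H44.Shore Pool.Agent.H44.Shore.MBC

/-- data of a piece of the sliver -/
structure Sv where
  b : Bx
  LO : ℤ
  HI : ℤ
  B : ℕ

/-- `2 ^ 40 N` times the upper end `xL - e0 / 2 ^ 40` -/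
def yU (nL N e0 : ℕ) : ℕ := Nat.sub (Nat.mul nL (Nat.pow 2 40)) (Nat.mul e0 N)

/-- final inequality of the sliver check -/
def slA (nL N e0 e1 SL q : ℕ) (LO : ℤ) : Bool :=
  nn (Int.sub (Int.add ((Nat.mul (Nat.mul SL 1073741824) (Nat.mul (yU nL N e0) N) : ℕ) : ℤ)
    (Int.mul (Int.add (Int.mul LO (yU nL N e0 : ℤ))
      ((Nat.mul (Nat.mul N (Nat.pow 2 40)) 1073741824 : ℕ) : ℤ)) (yU nL N e1 : ℤ)))
    ((Nat.mul q (Nat.mul (Nat.mul (yU nL N e0) N) (Nat.pow 2 40)) : ℕ) : ℤ))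

theorem slA_aux {N SL q a b y0 y1 : ℕ} {LO : ℤ} (h1 : 0 ≤
      ((SL * a * (y0 * N) : ℕ) : ℤ) + (LO * (y0 : ℤ) + ((N * b * a : ℕ) : ℤ)) * (y1 : ℤ) -
        ((q * (y0 * N * b) : ℕ) : ℤ)) :
    (0:ℝ) ≤ (SL:ℝ) * a * (y0 * N) + (LO * y0 + N * b * a) * y1 - (q:ℝ) * (y0 * N * b) := by
  have h2 := cast_nn h1
  push_cast at h2
  exact h2

theorem slA_real {nL N e0 e1 SL q : ℕ} {LO : ℤ} (h : slA nL N e0 e1 SL q LO = true) :
    (0:ℝ) ≤ (SL:ℝ) * 2 ^ 30 * ((yU nL N e0 : ℝ) * N) +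
      (LO * (yU nL N e0 : ℝ) + N * 2 ^ 40 * 2 ^ 30) * (yU nL N e1 : ℝ) -
      (q:ℝ) * ((yU nL N e0 : ℝ) * N * 2 ^ 40) := by
  have h2 := slA_aux (N := N) (SL := SL) (q := q) (LO := LO) (y0 := yU nL N e0)
    (y1 := yU nL N e1) (a := 1073741824) (b := Nat.pow 2 40) (nn_sound h)
  rw [c30, cpow] at h2
  exact h2

theorem frac_le2 {b q N A : ℝ} {y0 : ℝ} (hy : 0 < y0) (hN : 0 < N) (hb : 0 < b)
    (h : q * (y0 * N * b) ≤ A) : q / 2 ^ 30 ≤ A / (2 ^ 30 * (y0 * N * b)) := by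
  rw [div_le_div_iff₀ (by positivity) (by positivity)]
  have h1 := mul_le_mul_of_nonneg_right h (by positivity : (0:ℝ) ≤ 2 ^ 30)
  calc q * (2 ^ 30 * (y0 * N * b)) = q * (y0 * N * b) * 2 ^ 30 := by ring
    _ ≤ A * 2 ^ 30 := h1

theorem slA_sound {nL N e0 e1 SL q : ℕ} {LO : ℤ} (hN : 0 < N) (hy : 0 < yU nL N e0)
    (h : slA nL N e0 e1 SL q LO = true) : (q:ℝ) / 2 ^ 30 ≤
      ((LO:ℝ) / 2 ^ 30 + N * 2 ^ 40 / (yU nL N e0 : ℝ)) * ((yU nL N e1 : ℝ) / (N * 2 ^ 40)) +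
        (SL:ℝ) / 2 ^ 40 := by
  have hN' : (0:ℝ) < N := by exact_mod_cast hN
  have hy' : (0:ℝ) < (yU nL N e0 : ℝ) := by exact_mod_cast hy
  have h1 := slA_real h
  have hb : (0:ℝ) < 2 ^ 40 := by positivity
  have ha : (0:ℝ) < 2 ^ 30 := by positivity
  have e : ((LO:ℝ) / 2 ^ 30 + N * 2 ^ 40 / (yU nL N e0 : ℝ)) *
      ((yU nL N e1 : ℝ) / (N * 2 ^ 40)) + (SL:ℝ) / 2 ^ 40 =
      ((SL:ℝ) * 2 ^ 30 * ((yU nL N e0 : ℝ) * N) +
      (LO * (yU nL N e0 : ℝ) + N * 2 ^ 40 * 2 ^ 30) * (yU nL N e1 : ℝ)) /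
        (2 ^ 30 * ((yU nL N e0 : ℝ) * N * 2 ^ 40)) := by
    generalize (2:ℝ) ^ 40 = b at hb
    generalize (2:ℝ) ^ 30 = a at ha
    generalize (yU nL N e0 : ℝ) = y0 at hy'
    generalize (yU nL N e1 : ℝ) = y1
    field_simp
    ring
  rw [e]
  exact frac_le2 hy' hN' hb (by linarith)

theorem yU_aux {nL N e b : ℕ} (h : e * N + 1 ≤ nL * b) :
    ((nL * b - e * N : ℕ) : ℝ) = (nL:ℝ) * b - e * N := by
  rw [Nat.cast_sub (by omega)]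
  push_cast
  ring

/-- `yU` is positive -/
def slP (nL N e : ℕ) : Bool := Nat.ble (Nat.add (Nat.mul e N) 1) (Nat.mul nL (Nat.pow 2 40))

theorem slP_sound {nL N e : ℕ} (hN : 0 < N) (h : slP nL N e = true) :
    0 < yU nL N e ∧ (yU nL N e : ℝ) / (N * 2 ^ 40) = (nL:ℝ) / N - (e:ℝ) / 2 ^ 40 := by
  have hN' : (0:ℝ) < N := by exact_mod_cast hN
  have h1 : e * N + 1 ≤ nL * Nat.pow 2 40 := Nat.le_of_ble_eq_true h
  have h2 := yU_aux h1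
  rw [cpow] at h2
  have e0 : yU nL N e = nL * Nat.pow 2 40 - e * N := rfl
  constructor
  · rw [e0]
    omega
  · rw [e0, h2]
    have hb : (0:ℝ) < 2 ^ 40 := by positivity
    generalize (2:ℝ) ^ 40 = b at hb
    field_simp

def slS (nL N e0 : ℕ) (LO : ℤ) : Bool :=
  nn (Int.add (Int.mul LO (yU nL N e0 : ℤ))
    ((Nat.mul (Nat.mul N (Nat.pow 2 40)) 1073741824 : ℕ) : ℤ))

theorem slS_aux {N y0 a b : ℕ} {LO : ℤ} (h1 : 0 ≤ LO * (y0 : ℤ) + ((N * b * a : ℕ) : ℤ)) :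
    (0:ℝ) ≤ LO * y0 + N * b * a := by
  have h2 := cast_nn h1
  push_cast at h2
  exact h2

theorem slS_sound {nL N e0 : ℕ} {LO : ℤ} (hy : 0 < yU nL N e0) (h : slS nL N e0 LO = true) :
    (0:ℝ) ≤ (LO:ℝ) / 2 ^ 30 + N * 2 ^ 40 / (yU nL N e0 : ℝ) := by
  have hy' : (0:ℝ) < (yU nL N e0 : ℝ) := by exact_mod_cast hy
  have h2 := slS_aux (N := N) (LO := LO) (y0 := yU nL N e0) (a := 1073741824)
    (b := Nat.pow 2 40) (nn_sound h)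
  rw [c30, cpow] at h2
  have ha : (0:ℝ) < 2 ^ 30 := by positivity
  have hb : (0:ℝ) < 2 ^ 40 := by positivity
  generalize (2:ℝ) ^ 40 = b at hb h2
  generalize (2:ℝ) ^ 30 = a at ha h2
  generalize (yU nL N e0 : ℝ) = y0 at hy' h2
  have e : (LO:ℝ) / a + N * b / y0 = (LO * y0 + N * b * a) / (a * y0) := by
    field_simp
  rw [e]
  positivity

/-- lower end of the range of the abscissa -/
def slK (nL N e0 s : ℕ) (ks : ℤ) : Bool :=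
  nn (Int.sub (Int.mul (Int.sub ((Nat.mul e0 N : ℕ) : ℤ) ((Nat.mul nL (Nat.pow 2 40) : ℕ) : ℤ))
      (s : ℤ)) (Int.mul (Int.mul ks (N : ℤ)) ((Nat.pow 2 40 : ℕ) : ℤ)))

theorem slK_aux {nL N e0 b d : ℕ} {ks : ℤ} (h1 : 0 ≤
      (((e0 * N : ℕ) : ℤ) - ((nL * b : ℕ) : ℤ)) * (d : ℤ) - ks * (N : ℤ) * (b : ℤ)) :
    (0:ℝ) ≤ ((e0:ℝ) * N - nL * b) * d - ks * N * b := by
  have h2 := cast_nn h1
  push_cast at h2
  exact h2

theorem slK_sound {nL N e0 s : ℕ} {ks : ℤ} (hN : 0 < N) (hs : 0 < s)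
    (h : slK nL N e0 s ks = true) : (ks:ℝ) / s ≤ -((nL:ℝ) / N) + (e0:ℝ) / 2 ^ 40 := by
  have hN' : (0:ℝ) < N := by exact_mod_cast hN
  have h2 := slK_aux (nL := nL) (N := N) (e0 := e0) (ks := ks) (b := Nat.pow 2 40)
    (d := s) (nn_sound h)
  rw [cpow] at h2
  have hb : (0:ℝ) < 2 ^ 40 := by positivity
  have hd : (0:ℝ) < s := by exact_mod_cast hs
  generalize (2:ℝ) ^ 40 = b at hb h2
  generalize (s:ℝ) = d at hd h2
  rw [div_le_iff₀ hd]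
  have e : (-((nL:ℝ) / N) + (e0:ℝ) / b) * d = ((e0:ℝ) * N - nL * b) * d / (N * b) := by
    field_simp
    ring
  rw [e, le_div_iff₀ (by positivity)]
  linarith

/-- check of a piece of the sliver -/
def pcC (K : RC) (r1 r2 e0 e1 SL : ℕ) (v : Sv) : Bool :=
  v.b.ok && (coverW K.rbn v.b r1 r2 && (slP K.nL K.N e0 && (slP K.nL K.N e1 &&
  (slK K.nL K.N e0 v.b.s v.b.ks &&
  (slX K.nL K.N e1 v.b.s (Int.add v.b.ks ((Nat.mul v.b.n v.b.st : ℕ) : ℤ)) &&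
  ((sq K v.b && withTab K.W (v.b.n + 1) fun Bs o =>
    rngP K.G.g10 K.G.g30 K.G.g12 K.epsN v.b 9 v.LO v.HI K.W Bs o &&
    rngP K.G.g01 K.G.g21 K.G.g03 K.epsN v.b 20 (Int.neg (v.B : ℤ)) (v.B : ℤ) K.W Bs o) &&
  (slQ (mU v.HI.toNat 1095216661) (mU (cB K.rbn) v.B) &&
  (slS K.nL K.N e0 v.LO &&
  slA K.nL K.N e0 e1 SL (mU (cB K.rbn) v.B) v.LO))))))))

/-- the conclusion -/
def SlF (D : Dat) (SL r vr u θ : ℝ) : Prop :=
  max 0 (D.gs r vr u (Real.cos θ) (Real.sin θ)) ≤ max 0 ((-vr + u * Real.tan θ) / r) + SL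

theorem pcC_sound {D : Dat} {K : RC} (hK : RCOk D K) {r1 r2 e0 e1 SL : ℕ} {v : Sv}
    (h : pcC K r1 r2 e0 e1 SL v = true) :
    ∀ r ∈ Icc ((r1:ℝ) / 2 ^ 20) ((r2:ℝ) / 2 ^ 20), 0 < r → ∀ vr u : ℝ,
    vr ^ 2 + u ^ 2 ≤ (51 / 50) ^ 2 → ∀ θ : ℝ,
    D.xL - (e1:ℝ) / 2 ^ 40 ≤ r * Real.cos θ → r * Real.cos θ ≤ D.xL - (e0:ℝ) / 2 ^ 40 →
    SlF D ((SL:ℝ) / 2 ^ 40) r vr u θ := by
  intro r hr hr0 vr u hv θ hθ1 hθ2
  have hN : (0:ℝ) < K.N := by exact_mod_cast hK.hN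
  have hrbn : (0:ℝ) < K.rbn := by exact_mod_cast hK.hrbn
  have hrB0 : 0 < D.rB := by
    rw [hK.hrB]
    positivity
  unfold pcC at h
  simp only [Bool.and_eq_true] at h
  obtain ⟨k1, k2, k3, k4, k5, k6, ⟨ksq, k78⟩, k9, k10, k11⟩ := h
  obtain ⟨y0, y0e⟩ := slP_sound hK.hN k3
  obtain ⟨y1, y1e⟩ := slP_sound hK.hN k4
  -- range of the abscissa
  have x1 : (v.b.ks:ℝ) / v.b.s ≤ -(r * Real.cos θ) := by
    have h3 := slK_sound hK.hN (bx_pos k1).1 k5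
    rw [← hK.hxL] at h3
    linarith
  have x2 : -(r * Real.cos θ) ≤ (v.b.ks + v.b.n * v.b.st) / v.b.s := by
    have h3 := slX_sound hK.hN (bx_pos k1).1 k6
    rw [← hK.hxL] at h3
    have e : ((Int.add v.b.ks ((Nat.mul v.b.n v.b.st : ℕ) : ℤ) : ℤ) : ℝ) =
        v.b.ks + v.b.n * v.b.st := by
      show ((v.b.ks + ((v.b.n * v.b.st : ℕ) : ℤ) : ℤ) : ℝ) = _
      push_cast
      ring
    rw [e] at h3
    linarith
  -- range of the bump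
  obtain ⟨w1, w2⟩ := coverW_sound hK.hrbn k1 k2
  have hWr : D.W r = max 0 (1 - r ^ 2 / ((K.rbn:ℝ) / 2 ^ 20) ^ 2) := by
    unfold Dat.W
    rw [hK.hrB]
  have hW1 : (v.b.zs:ℝ) / v.b.q ≤ D.W r := by
    rw [hWr]
    rcases w1 with w1 | w1
    · exact w1.trans (le_max_left _ _)
    · refine w1.trans (le_trans ?_ (le_max_right _ _))
      have h1 : r ^ 2 / ((K.rbn:ℝ) / 2 ^ 20) ^ 2 ≤
          ((r2:ℝ) / 2 ^ 20) ^ 2 / ((K.rbn:ℝ) / 2 ^ 20) ^ 2 := by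
        have := hr.2
        gcongr
      linarith
  have hW2 : D.W r ≤ (v.b.zs + v.b.m * v.b.g) / v.b.q := by
    rw [hWr]
    apply max_le
    · positivity
    · refine le_trans ?_ w2
      have h1 : ((r1:ℝ) / 2 ^ 20) ^ 2 / ((K.rbn:ℝ) / 2 ^ 20) ^ 2 ≤
          r ^ 2 / ((K.rbn:ℝ) / 2 ^ 20) ^ 2 := by
        have := hr.1
        gcongr
      linarith
  -- the derivatives
  unfold sq at ksq
  rw [Bool.and_eq_true] at ksq
  obtain ⟨hs, hq⟩ := ksq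
  have hs : v.b.s = K.s := Nat.eq_of_beq_eq_true hs
  have hq : v.b.q = K.q := Nat.eq_of_beq_eq_true hq
  have hG := hK.hG
  rw [← hs, ← hq] at hG
  obtain ⟨Bs, hB, k78⟩ := withTab_sound hK.hW k78
  rw [Bool.and_eq_true] at k78
  obtain ⟨k7, k8⟩ := k78
  have d1 := rngP_sound hK.apx hK.l1 k1 (by decide +kernel) hG.e10 hG.e30 hG.e12 hK.hW hB k7 _
    ⟨x1, x2⟩ _ ⟨hW1, hW2⟩
  have d2 := rng_abs hK k1 (by decide +kernel) hG.e01 hG.e21 hG.e03 hB k8 le_rfl le_rfl le_rfl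
    le_rfl _ ⟨x1, x2⟩ _ ⟨hW1, hW2⟩
  rw [← Dat.bx_eq] at d1
  rw [← Dat.bw_eq] at d2
  have h8 := slQ_sound k9
  have h9 := slS_sound (N := K.N) y0 k10
  have h11 := slA_sound hK.hN y0 k11
  rw [y1e, ← hK.hxL] at h11
  rw [← hK.hxL] at y0e y1e
  have hyp : 0 < D.xL - (e1:ℝ) / 2 ^ 40 := by
    rw [← y1e]
    have : (0:ℝ) < (yU K.nL K.N e1 : ℝ) := by exact_mod_cast y1
    positivity
  have hy0' : (0:ℝ) < (yU K.nL K.N e0 : ℝ) := by exact_mod_cast y0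
  clear k1 k2 k3 k4 k5 k6 k7 k8 k9 k10 k11 w1 w2 x1 x2 hW1 hW2 hWr y1e hB hG
  have h30 : (0:ℝ) < 2 ^ 30 := by positivity
  -- the constants
  have hq0 : UB (2 * (51 / 50 + D.rB) / D.rB * |D.bw (-(r * Real.cos θ)) (D.W r)|)
      (mU (cB K.rbn) v.B) := by
    have h1 := cB_sound hK.hrbn
    rw [← hK.hrB] at h1
    refine h1.mul ⟨abs_nonneg _, ?_⟩
    rw [le_div_iff₀ h30] at d2
    exact d2
  have hHI : UB (max 0 ((v.HI:ℝ) / 2 ^ 30)) v.HI.toNat := by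
    refine ⟨le_max_left _ _, ?_⟩
    rw [max_mul_of_nonneg _ _ h30.le, zero_mul]
    have e : (v.HI:ℝ) / 2 ^ 30 * 2 ^ 30 = v.HI := by field_simp
    rw [e]
    apply max_le (Nat.cast_nonneg _)
    have : v.HI ≤ (v.HI.toNat : ℤ) := Int.self_le_toNat _
    exact_mod_cast this
  have hHV := (hHI.mul V_sound).2
  have hsl0 : (0:ℝ) ≤ (SL:ℝ) / 2 ^ 40 := by positivity
  have hinv : (K.N:ℝ) * 2 ^ 40 / (yU K.nL K.N e0 : ℝ) = 1 / (D.xL - (e0:ℝ) / 2 ^ 40) := by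
    rw [← y0e, one_div_div]
  rw [hinv] at h9 h11
  generalize mU (cB K.rbn) v.B = q at h8 h11 hq0
  generalize mU v.HI.toNat 1095216661 = p at h8 hHV
  generalize (SL:ℝ) / 2 ^ 40 = sl at hsl0 h11 ⊢
  generalize (e1:ℝ) / 2 ^ 40 = eps at hθ1 hyp h11
  generalize (e0:ℝ) / 2 ^ 40 = eps0 at hθ2 h11 h9
  refine sliver_gen (s0 := (v.LO:ℝ) / 2 ^ 30 + 1 / (D.xL - eps0)) (q0 := (q:ℝ) / 2 ^ 30)
    (b1 := max 0 ((v.HI:ℝ) / 2 ^ 30)) hrB0 (by norm_num) h9 (le_max_left _ _) ?_ (by linarith)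
    hsl0 h11 hr0 hθ1 hv ?_ (d1.2.trans (le_max_right _ _)) ?_
  · generalize (2:ℝ) ^ 30 = a at *
    have e : (q:ℝ) / a = 1 - (a - q) / a := by
      field_simp
      ring
    rw [e]
    have h12 : max 0 ((v.HI:ℝ) / a) * (51 / 50) ≤ (a - q) / a := by
      rw [le_div_iff₀ h30]
      linarith
    linarith
  · have hy : 0 < r * Real.cos θ := by linarith
    have h12 : 1 / (-(r * Real.cos θ)) ≤ -(1 / (D.xL - eps0)) := by
      rw [div_neg, neg_le_neg_iff]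
      exact one_div_le_one_div_of_le hy hθ2
    linarith [d1.1]
  · rw [le_div_iff₀ h30]
    exact hq0.2

/-- pieces in the direction of the abscissa -/
def pcs (K : RC) (r1 r2 SL ep : ℕ) : ℕ → List (ℕ × Sv) → Bool
  | e0, [] => Nat.ble ep e0
  | e0, p :: t => pcC K r1 r2 e0 p.1 SL p.2 && pcs K r1 r2 SL ep p.1 t

theorem cast_e_le {a b : ℕ} (h : Nat.ble a b = true) : (a:ℝ) / 2 ^ 40 ≤ (b:ℝ) / 2 ^ 40 := by
  have h1 : a ≤ b := Nat.le_of_ble_eq_true h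
  have h2 : (a:ℝ) ≤ b := by exact_mod_cast h1
  exact div_le_div_of_nonneg_right h2 (by positivity)

theorem pcs_sound {D : Dat} {K : RC} (hK : RCOk D K) {r1 r2 SL ep : ℕ} :
    ∀ {l : List (ℕ × Sv)} {e0 : ℕ}, pcs K r1 r2 SL ep e0 l = true →
    ∀ r ∈ Icc ((r1:ℝ) / 2 ^ 20) ((r2:ℝ) / 2 ^ 20), 0 < r → ∀ vr u : ℝ,
    vr ^ 2 + u ^ 2 ≤ (51 / 50) ^ 2 → ∀ θ : ℝ,
    (l ≠ [] ∨ r * Real.cos θ < D.xL - (e0:ℝ) / 2 ^ 40) →
    D.xL - (ep:ℝ) / 2 ^ 40 ≤ r * Real.cos θ → r * Real.cos θ ≤ D.xL - (e0:ℝ) / 2 ^ 40 →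
    SlF D ((SL:ℝ) / 2 ^ 40) r vr u θ
  | [], e0, h => by
    intro r hr hr0 vr u hv θ hne hθ1 hθ2
    exfalso
    have := cast_e_le h
    rcases hne with hne | hne
    · exact hne rfl
    · linarith
  | p :: t, e0, h => by
    intro r hr hr0 vr u hv θ _ hθ1 hθ2
    unfold pcs at h
    rw [Bool.and_eq_true] at h
    rcases le_or_gt (D.xL - (p.1:ℝ) / 2 ^ 40) (r * Real.cos θ) with h1 | h1
    · exact pcC_sound hK h.1 r hr hr0 vr u hv θ h1 hθ2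
    · exact pcs_sound hK h.2 r hr hr0 vr u hv θ (Or.inr h1) hθ1 h1.le

/-- pieces in the direction of the radius -/
def rcs (K : RC) (rb SL ep : ℕ) : ℕ → List (ℕ × List (ℕ × Sv)) → Bool
  | r1, [] => Nat.ble rb r1
  | r1, p :: t => !p.2.isEmpty && (pcs K r1 p.1 SL ep 0 p.2 && rcs K rb SL ep p.1 t)

theorem rcs_sound {D : Dat} {K : RC} (hK : RCOk D K) {rb SL ep : ℕ} :
    ∀ {l : List (ℕ × List (ℕ × Sv))} {r1 : ℕ}, rcs K rb SL ep r1 l = true →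
    ∀ r, (l ≠ [] ∨ (r1:ℝ) / 2 ^ 20 < r) → (r1:ℝ) / 2 ^ 20 ≤ r → r ≤ (rb:ℝ) / 2 ^ 20 → 0 < r →
    ∀ vr u : ℝ, vr ^ 2 + u ^ 2 ≤ (51 / 50) ^ 2 → ∀ θ : ℝ,
    D.xL - (ep:ℝ) / 2 ^ 40 ≤ r * Real.cos θ → r * Real.cos θ ≤ D.xL →
    SlF D ((SL:ℝ) / 2 ^ 40) r vr u θ
  | [], r1, h => by
    intro r hne hr hrb hr0 vr u hv θ hθ1 hθ2
    exfalso
    have := ble_cast h
    rcases hne with hne | hne
    · exact hne rfl
    · linarith
  | p :: t, r1, h => by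
    intro r _ hr hrb hr0 vr u hv θ hθ1 hθ2
    unfold rcs at h
    rw [Bool.and_eq_true, Bool.and_eq_true] at h
    obtain ⟨h0, h1, h2⟩ := h
    rcases le_or_gt r ((p.1:ℝ) / 2 ^ 20) with h3 | h3
    · refine pcs_sound hK h1 r ⟨hr, h3⟩ hr0 vr u hv θ (Or.inl ?_) hθ1 (by simpa using hθ2)
      intro h4
      rw [h4] at h0
      exact absurd h0 (by decide)
    · exact rcs_sound hK h2 r (Or.inr h3) h3.le hrb hr0 vr u hv θ hθ1 hθ2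

/-- the check of the sliver -/
def slivC (K : RC) (g : Reg) (r1 : ℕ) (l : List (ℕ × List (ℕ × Sv))) : Bool :=
  slF K.nL K.N g.ep g.rb || ((Nat.ble r1 g.ra || slF K.nL K.N g.ep r1) &&
    (!l.isEmpty && rcs K g.rb g.SL g.ep r1 l))

theorem slivC_sound {D : Dat} {K : RC} (hK : RCOk D K) {g : Reg} {r1 : ℕ}
    {l : List (ℕ × List (ℕ × Sv))} (h : slivC K g r1 l = true) :
    ∀ r ∈ Icc ((g.ra:ℝ) / 2 ^ 20) ((g.rb:ℝ) / 2 ^ 20), 0 < r → ∀ vr u : ℝ,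
    vr ^ 2 + u ^ 2 ≤ (51 / 50) ^ 2 → ∀ θ ∈ Icc 0 (Real.pi / 2),
    D.xL - (g.ep:ℝ) / 2 ^ 40 ≤ r * Real.cos θ → r * Real.cos θ ≤ D.xL →
    max 0 (D.gs r vr u (Real.cos θ) (Real.sin θ)) ≤
      max 0 ((-vr + u * Real.tan θ) / r) + (g.SL:ℝ) / 2 ^ 40 := by
  intro r hr hr0 vr u hv θ _ hθ1 hθ2
  have hcle : r * Real.cos θ ≤ r := by
    have := mul_le_mul_of_nonneg_left (Real.cos_le_one θ) hr0.le
    simpa using this
  unfold slivC at h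
  rw [Bool.or_eq_true, Bool.and_eq_true, Bool.and_eq_true] at h
  rcases h with h | ⟨h1, h0, h2⟩
  · exfalso
    have h1 := slF_sound hK.hN h
    rw [← hK.hxL] at h1
    linarith [hr.2]
  · have hr1 : (r1:ℝ) / 2 ^ 20 ≤ r := by
      rw [Bool.or_eq_true] at h1
      rcases h1 with h1 | h1
      · exact (ble_cast h1).trans hr.1
      · have h3 := slF_sound hK.hN h1
        rw [← hK.hxL] at h3
        linarith
    refine rcs_sound hK h2 r (Or.inl ?_) hr1 hr.2 hr0 vr u hv θ hθ1 hθ2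
    intro h4
    rw [h4] at h0
    exact absurd h0 (by decide)

theorem RegB.ok {D : Dat} {K : RC} (hK : RCOk D K) {g : Reg} (hB : RegB D (51 / 50) g) {r1 : ℕ}
    {l : List (ℕ × List (ℕ × Sv))} (h : slivC K g r1 l = true) : RegOk D (51 / 50) g :=
  ⟨hB.semi, hB.lip, hB.xb1, slivC_sound hK h⟩

end Pool.Agent.H44.ShoreN
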